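import Mathlib

/-!
# The twist graph of 3-coloured triangulations (definitions)

The vertices of a convex `N`-gon are `1, ..., N` in cyclic order. A chord is given by the pair
`(i, j)` of its end points with `i < j`. The colour of the vertex `i` is its residue modulo `3`.
-/

set_option autoImplicit false

namespace Pool.Agent.Z45.TwistGraph

/-- the side of the `N`-gon between the vertices `i < j` -/
def IsSide (N i j : ℕ) : Prop := (1 ≤ i ∧ j = i + 1 ∧ j ≤ N) ∨ (i = 1 ∧ j = N)

/-- `(i, j)` is a diagonal of the `N`-gon (written with `i < j`) -/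
def IsDiagonal (N i j : ℕ) : Prop := 1 ≤ i ∧ i + 2 ≤ j ∧ j ≤ N ∧ ¬ (i = 1 ∧ j = N)

/-- the chords `d` and `e` cross in an inner point -/
def Crosses (d e : ℕ × ℕ) : Prop :=
  (d.1 < e.1 ∧ e.1 < d.2 ∧ d.2 < e.2) ∨ (e.1 < d.1 ∧ d.1 < e.2 ∧ e.2 < d.2)

/-- `T` is (the set of diagonals of) a triangulation of the `N`-gon: a maximal set of pairwise
non-crossing diagonals. -/
structure IsTriangulation (N : ℕ) (T : Finset (ℕ × ℕ)) : Prop where
  diagonal : ∀ d ∈ T, IsDiagonal N d.1 d.2
  noncrossing : ∀ d ∈ T, ∀ e ∈ T, ¬ Crosses d e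
  maximal : ∀ i j, IsDiagonal N i j → (∀ e ∈ T, ¬ Crosses (i, j) e) → (i, j) ∈ T

/-- `(i, j)` is an edge of the triangulated polygon: a side of the polygon or a diagonal in `T`. -/
def IsEdge (N : ℕ) (T : Finset (ℕ × ℕ)) (i j : ℕ) : Prop := IsSide N i j ∨ (i, j) ∈ T

/-- Every triangle `a < b < c` of the triangulation (three vertices which are pairwise joined by
edges) has one vertex of each of the three colours. -/
def IsColorful (N : ℕ) (T : Finset (ℕ × ℕ)) : Prop :=
  ∀ a b c, a < b → b < c → IsEdge N T a b → IsEdge N T b c → IsEdge N T a c →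
    a % 3 ≠ b % 3 ∧ b % 3 ≠ c % 3 ∧ a % 3 ≠ c % 3

/-- `T'` arises from `T` by a twist: there is a hexagon with the vertices `a < b < c < d < e < f`,
whose six sides are edges of `T`, and either the three sides of the triangle `a c e` are diagonals
in `T` and `T'` is obtained by replacing them by the three sides of the triangle `b d f`, or the
other way round. -/
def Twist (N : ℕ) (T T' : Finset (ℕ × ℕ)) : Prop :=
  ∃ a b c d e f : ℕ, a < b ∧ b < c ∧ c < d ∧ d < e ∧ e < f ∧
    IsEdge N T a b ∧ IsEdge N T b c ∧ IsEdge N T c d ∧ IsEdge N T d e ∧ IsEdge N T e f ∧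
    IsEdge N T a f ∧
    (((a, c) ∈ T ∧ (c, e) ∈ T ∧ (a, e) ∈ T ∧
        T' = (T \ {(a, c), (c, e), (a, e)}) ∪ {(b, d), (d, f), (b, f)}) ∨
      ((b, d) ∈ T ∧ (d, f) ∈ T ∧ (b, f) ∈ T ∧
        T' = (T \ {(b, d), (d, f), (b, f)}) ∪ {(a, c), (c, e), (a, e)}))

/-- The colorful triangulations of the `N`-gon. -/
def Tri (N : ℕ) : Type := {T : Finset (ℕ × ℕ) // IsTriangulation N T ∧ IsColorful N T}

/-- The graph `𝓗_N`: the colorful triangulations of the `N`-gon, two of them adjacent when one is
obtained from the other by a twist. -/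
def H (N : ℕ) : SimpleGraph (Tri N) := SimpleGraph.fromRel fun S T => Twist N S.1 T.1

end Pool.Agent.Z45.TwistGraph
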