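import Mathlib
import Pool.Agent.Z45.TwistBasic

set_option autoImplicit false

namespace Pool.Agent.Z45.TwistGraph

/-! ### enumeration -/

/-- the code of a diagonal -/
def bit (i k : ℕ) : ℕ := if k = i + 1 then 0 else 2 ^ (16 * i + k)

/-- all colorful triangulations of the polygon with the vertices `i, ..., j` -/
def enum : ℕ → ℕ → ℕ → List ℕ
  | 0, _, _ => []
  | s + 1, i, j => if j = i + 1 then [0] else
      (List.range j).flatMap fun k =>
        if i < k ∧ i % 3 ≠ k % 3 ∧ k % 3 ≠ j % 3 ∧ i % 3 ≠ j % 3 then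
          (enum s i k).flatMap fun a => (enum s k j).map fun b => a ||| b ||| bit i k ||| bit k j
        else []

/-- the apex of the triangle at the lower side of an edge -/
theorem exists_apex {N : ℕ} {T : Finset (ℕ × ℕ)} (hT : IsTriangulation N T) {i j : ℕ}
    (hij : i + 2 ≤ j) (hi : 1 ≤ i) (hj : j ≤ N) (he : IsEdge N T i j) :
    ∃ k, i < k ∧ k < j ∧ IsEdge N T i k ∧ IsEdge N T k j := by
  classical
  -- `k` is the last vertex before `j` which is joined to `i`
  have hne : ((Finset.Ioo i j).filter fun k => IsEdge N T i k).Nonempty := by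
    refine ⟨i + 1, ?_⟩
    rw [Finset.mem_filter, Finset.mem_Ioo]
    exact ⟨⟨by omega, by omega⟩, Or.inl (Or.inl ⟨hi, rfl, by omega⟩)⟩
  obtain ⟨k, hk, hmax⟩ := Finset.exists_max_image _ (fun k => k) hne
  rw [Finset.mem_filter, Finset.mem_Ioo] at hk
  obtain ⟨⟨h1, h2⟩, h3⟩ := hk
  refine ⟨k, h1, h2, h3, ?_⟩
  by_contra hcon
  have hkj : k + 2 ≤ j := by
    by_contra h
    have : j = k + 1 := by omega
    exact hcon (Or.inl (Or.inl ⟨by omega, this, hj⟩))
  have hd : IsDiagonal N k j := ⟨by omega, hkj, hj, by omega⟩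
  have : ¬ ∀ e ∈ T, ¬ Crosses (k, j) e := fun h => hcon (Or.inr (hT.maximal k j hd h))
  push Not at this
  obtain ⟨⟨x, y⟩, hxy, hc⟩ := this
  have hdx := hT.diagonal _ hxy
  simp only [IsDiagonal] at hdx
  -- no crossing with `(i, j)`
  have c1 : ¬ Crosses (i, j) (x, y) := by
    rcases he with he | he
    · rcases he with he | he
      · omega
      · simp only [Crosses]
        omega
    · exact hT.noncrossing _ he _ hxy
  have c2 : ¬ Crosses (i, k) (x, y) := by
    rcases h3 with h3 | h3
    · rcases h3 with h3 | h3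
      · simp only [Crosses]
        omega
      · omega
    · exact hT.noncrossing _ h3 _ hxy
  simp only [Crosses] at hc c1 c2
  have hx : x = i := by omega
  subst hx
  have := hmax y (by
    rw [Finset.mem_filter, Finset.mem_Ioo]
    exact ⟨⟨by omega, by omega⟩, Or.inr hxy⟩)
  omega

theorem testBit_bit (i k a b : ℕ) (hb : b < 16) (hk : k < 16) (hik : i < k) :
    (bit i k).testBit (16 * a + b) = true ↔ a = i ∧ b = k ∧ i + 2 ≤ k := by
  unfold bit
  split_ifs with h
  · simp only [Nat.zero_testBit, Bool.false_eq_true, false_iff]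
    omega
  · rw [Nat.testBit_two_pow, decide_eq_true_eq]
    omega

/-- completeness of the enumeration -/
theorem mem_enum {N : ℕ} (hN : N < 16) {T : Finset (ℕ × ℕ)} (hT : IsTriangulation N T)
    (hc : IsColorful N T) : ∀ s i j : ℕ, j ≤ i + s → i < j → 1 ≤ i → j ≤ N → IsEdge N T i j →
      ∃ m ∈ enum s i j, ∀ a b : ℕ, b < 16 → (m.testBit (16 * a + b) = true ↔
        (a, b) ∈ T ∧ i ≤ a ∧ b ≤ j ∧ (a, b) ≠ (i, j)) := by
  intro s
  induction s with
  | zero => intro i j h1 h2; omega
  | succ s ih =>
    intro i j h1 h2 hi hj he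
    by_cases hs : j = i + 1
    · refine ⟨0, by simp [enum, hs], ?_⟩
      intro a b hb
      simp only [Nat.zero_testBit, Bool.false_eq_true, false_iff, not_and]
      intro hab h3 h4 h5
      have := hT.diagonal _ hab
      simp only [IsDiagonal] at this
      omega
    · obtain ⟨k, hik, hkj, e1, e2⟩ := exists_apex hT (by omega) hi hj he
      obtain ⟨c1, c2, c3⟩ := hc i k j hik hkj e1 e2 he
      obtain ⟨m1, hm1, f1⟩ := ih i k (by omega) hik hi (by omega) e1
      obtain ⟨m2, hm2, f2⟩ := ih k j (by omega) hkj (by omega) hj e2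
      refine ⟨m1 ||| m2 ||| bit i k ||| bit k j, ?_, ?_⟩
      · simp only [enum, if_neg hs, List.mem_flatMap, List.mem_range]
        refine ⟨k, hkj, ?_⟩
        rw [if_pos ⟨hik, c1, c2, c3⟩]
        simp only [List.mem_flatMap, List.mem_map]
        exact ⟨m1, hm1, m2, hm2, rfl⟩
      · intro a b hb
        rw [Nat.testBit_or, Nat.testBit_or, Nat.testBit_or, Bool.or_eq_true, Bool.or_eq_true,
          Bool.or_eq_true, f1 a b hb, f2 a b hb, testBit_bit i k a b hb (by omega) hik,
          testBit_bit k j a b hb (by omega) hkj]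
        have memT : ∀ {x y : ℕ}, IsEdge N T x y → x + 2 ≤ y → ¬ (x = 1 ∧ y = N) → (x, y) ∈ T := by
          intro x y h h' h''
          rcases h with h | h
          · simp only [IsSide] at h
            omega
          · exact h
        constructor
        · rintro (((⟨h3, h4, h5, h6⟩ | ⟨h3, h4, h5, h6⟩) | ⟨rfl, rfl, h3⟩) | ⟨rfl, rfl, h3⟩)
          · refine ⟨h3, h4, by omega, ?_⟩
            simp only [ne_eq, Prod.mk.injEq]; omega
          · refine ⟨h3, by omega, h5, ?_⟩
            simp only [ne_eq, Prod.mk.injEq]; omega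
          · refine ⟨memT e1 h3 (by omega), le_rfl, by omega, ?_⟩
            simp only [ne_eq, Prod.mk.injEq]; omega
          · refine ⟨memT e2 h3 (by omega), by omega, le_rfl, ?_⟩
            simp only [ne_eq, Prod.mk.injEq]; omega
        · rintro ⟨h3, h4, h5, h6⟩
          have hd := hT.diagonal _ h3
          simp only [IsDiagonal] at hd
          have n1 : ¬ Crosses (i, k) (a, b) := by
            rcases e1 with e1 | e1
            · simp only [IsSide] at e1
              simp only [Crosses]; omega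
            · exact hT.noncrossing _ e1 _ h3
          have n2 : ¬ Crosses (k, j) (a, b) := by
            rcases e2 with e2 | e2
            · simp only [IsSide] at e2
              simp only [Crosses]; omega
            · exact hT.noncrossing _ e2 _ h3
          simp only [Crosses] at n1 n2
          simp only [ne_eq, Prod.mk.injEq] at h6 ⊢
          by_cases q1 : b ≤ k
          · by_cases q2 : a = i ∧ b = k
            · left; right; omega
            · left; left; left; exact ⟨h3, h4, q1, q2⟩
          · by_cases q2 : k ≤ a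
            · by_cases q3 : a = k ∧ b = j
              · right; omega
              · left; left; right; exact ⟨h3, q2, h5, q3⟩
            · exfalso
              omega

/-- the code of a list of diagonals -/
def encode : List (ℕ × ℕ) → ℕ
  | [] => 0
  | p :: l => 2 ^ (16 * p.1 + p.2) ||| encode l

theorem testBit_encode {a b : ℕ} (hb : b < 16) : ∀ l : List (ℕ × ℕ), (∀ p ∈ l, p.2 < 16) →
    ((encode l).testBit (16 * a + b) = true ↔ (a, b) ∈ l) := by
  intro l
  induction l with
  | nil => intro _; simp [encode]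
  | cons p l ih =>
    intro h
    have hp := h p (List.mem_cons_self)
    have ih' := ih fun q hq => h q (List.mem_cons_of_mem _ hq)
    obtain ⟨x, y⟩ := p
    simp only [encode, Nat.testBit_or, Bool.or_eq_true, ih', List.mem_cons, Nat.testBit_two_pow,
      decide_eq_true_eq, Prod.mk.injEq]
    refine or_congr ?_ Iff.rfl
    simp only at hp
    omega

/-- every colorful triangulation of an `N`-gon, `N ≤ 15`, is enumerated -/
theorem exists_code {N : ℕ} (hN : N < 16) (hN3 : 3 ≤ N) {T : Finset (ℕ × ℕ)}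
    (hT : IsTriangulation N T) (hc : IsColorful N T) : ∃ m ∈ enum N 1 N,
      ∀ l : List (ℕ × ℕ), (∀ p ∈ l, p.2 < 16) → encode l = m → T = l.toFinset := by
  obtain ⟨m, hm, hf⟩ := mem_enum hN hT hc N 1 N (by omega) (by omega) le_rfl le_rfl
    (Or.inl (Or.inr ⟨rfl, rfl⟩))
  refine ⟨m, hm, ?_⟩
  rintro l hl rfl
  ext ⟨a, b⟩
  rw [List.mem_toFinset]
  constructor
  · intro h
    have hd := hT.diagonal _ h
    simp only [IsDiagonal] at hd
    have hb : b < 16 := by omega
    rw [← testBit_encode hb l hl, hf a b hb]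
    refine ⟨h, by omega, by omega, ?_⟩
    simp only [ne_eq, Prod.mk.injEq]; omega
  · intro h
    have hb : b < 16 := hl _ h
    rw [← testBit_encode hb l hl, hf a b hb] at h
    exact h.1

/-- membership test -/
def mem (l : List (ℕ × ℕ)) (i j : ℕ) : Bool :=
  l.any fun p => Nat.beq p.1 i && Nat.beq p.2 j

theorem mem_iff (l : List (ℕ × ℕ)) (i j : ℕ) : mem l i j = true ↔ (i, j) ∈ l := by
  unfold mem
  rw [List.any_eq_true]
  constructor
  · rintro ⟨⟨a, b⟩, h, h'⟩
    rw [Bool.and_eq_true, Nat.beq_eq, Nat.beq_eq] at h'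
    obtain ⟨rfl, rfl⟩ := h'
    exact h
  · intro h
    exact ⟨(i, j), h, by simp⟩

/-- test for crossings -/
def cr (a b c d : ℕ) : Bool :=
  (Nat.blt a c && Nat.blt c b && Nat.blt b d) || (Nat.blt c a && Nat.blt a d && Nat.blt d b)

theorem cr_iff (a b c d : ℕ) : cr a b c d = true ↔ Crosses (a, b) (c, d) := by
  simp only [cr, Crosses, Bool.or_eq_true, Bool.and_eq_true, Nat.blt_eq, and_assoc]

/-- test for edges -/
def ed (N : ℕ) (l : List (ℕ × ℕ)) (i j : ℕ) : Bool :=
  (Nat.ble 1 i && Nat.beq j (i + 1) && Nat.ble j N) || (Nat.beq i 1 && Nat.beq j N) || mem l i j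

theorem ed_iff (N : ℕ) (l : List (ℕ × ℕ)) (i j : ℕ) :
    ed N l i j = true ↔ IsEdge N l.toFinset i j := by
  simp only [ed, IsEdge, IsSide, Bool.or_eq_true, Bool.and_eq_true, Nat.beq_eq, Nat.ble_eq, mem_iff,
    List.mem_toFinset, and_assoc]

/-- test for diagonals -/
def dg (N i j : ℕ) : Bool :=
  Nat.ble 1 i && Nat.ble (i + 2) j && Nat.ble j N && !(Nat.beq i 1 && Nat.beq j N)

theorem dg_iff (N i j : ℕ) : dg N i j = true ↔ IsDiagonal N i j := by
  simp only [dg, IsDiagonal, Bool.and_eq_true, Nat.ble_eq, Bool.not_eq_true',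
    Bool.and_eq_false_iff, and_assoc, not_and_or]
  refine and_congr Iff.rfl (and_congr Iff.rfl (and_congr Iff.rfl ?_))
  refine or_congr ?_ ?_
  · rw [← Bool.not_eq_true, Nat.beq_eq]
  · rw [← Bool.not_eq_true, Nat.beq_eq]

/-- the numbers below `16` -/
def nums : List ℕ := [0, 1, 2, 3, 4, 5, 6, 7, 8, 9, 10, 11, 12, 13, 14, 15]

theorem mem_nums {i : ℕ} (h : i < 16) : i ∈ nums := by
  unfold nums
  interval_cases i <;> decide

/-- test for colorful triangulations of the 14-gon -/
def good (l : List (ℕ × ℕ)) : Bool :=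
  (l.all fun d => dg 14 d.1 d.2) &&
  (l.all fun d => l.all fun e => !(cr d.1 d.2 e.1 e.2)) &&
  (nums.all fun i => nums.all fun j => !(dg 14 i j) || mem l i j ||
    l.any fun e => cr i j e.1 e.2) &&
  (nums.all fun a => nums.all fun b => !(Nat.blt a b && ed 14 l a b) ||
    nums.all fun c => !(Nat.blt b c && ed 14 l b c && ed 14 l a c) ||
      (!(Nat.beq (a % 3) (b % 3)) && !(Nat.beq (b % 3) (c % 3)) && !(Nat.beq (a % 3) (c % 3))))

theorem good_spec {l : List (ℕ × ℕ)} (h : good l = true) :
    IsTriangulation 14 l.toFinset ∧ IsColorful 14 l.toFinset := by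
  unfold good at h
  simp only [Bool.and_eq_true, List.all_eq_true, Bool.or_eq_true, Bool.not_eq_true',
    List.any_eq_true, dg_iff, mem_iff, cr_iff] at h
  obtain ⟨⟨⟨h1, h2⟩, h3⟩, h4⟩ := h
  have hle : ∀ {a b : ℕ}, IsEdge 14 l.toFinset a b → a < 16 ∧ b < 16 := by
    intro a b h
    rcases h with h | h
    · simp only [IsSide] at h
      omega
    · have := h1 _ (List.mem_toFinset.1 h)
      simp only [IsDiagonal] at this
      omega
  refine ⟨⟨fun d hd => h1 d (List.mem_toFinset.1 hd), fun d hd e he => ?_, ?_⟩, ?_⟩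
  · have := h2 d (List.mem_toFinset.1 hd) e (List.mem_toFinset.1 he)
    rw [← Bool.not_eq_true, cr_iff] at this
    exact this
  · intro i j hd hc
    have hd' := hd
    simp only [IsDiagonal] at hd'
    rcases h3 i (mem_nums (by omega)) j (mem_nums (by omega)) with (h | h) | ⟨e, he, h⟩
    · rw [← Bool.not_eq_true, dg_iff] at h
      exact absurd hd h
    · exact List.mem_toFinset.2 h
    · exact absurd h (hc e (List.mem_toFinset.2 he))
  · intro a b c hab hbc e1 e2 e3
    rcases h4 a (mem_nums (hle e1).1) b (mem_nums (hle e1).2) with h | h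
    · rw [← Bool.not_eq_true, Bool.and_eq_true, Nat.blt_eq, ed_iff] at h
      exact absurd ⟨hab, e1⟩ h
    · rcases h c (mem_nums (hle e2).2) with h | h
      · rw [← Bool.not_eq_true, Bool.and_eq_true, Bool.and_eq_true, Nat.blt_eq, ed_iff,
          ed_iff] at h
        exact absurd ⟨⟨hbc, e2⟩, e3⟩ h
      · rw [← Bool.not_eq_true, ← Bool.not_eq_true, ← Bool.not_eq_true, Nat.beq_eq, Nat.beq_eq,
          Nat.beq_eq] at h
        exact ⟨h.1.1, h.1.2, h.2⟩

/-- test whether `l'` is `l` without the diagonals in `old` and with the ones in `new` -/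
def repl (l l' old new : List (ℕ × ℕ)) : Bool :=
  (l'.all fun p => mem new p.1 p.2 || (mem l p.1 p.2 && !(mem old p.1 p.2))) &&
  (l.all fun p => mem old p.1 p.2 || mem l' p.1 p.2) && (new.all fun p => mem l' p.1 p.2)

theorem repl_spec {l l' old new : List (ℕ × ℕ)} (h : repl l l' old new = true) :
    l'.toFinset = (l.toFinset \ old.toFinset) ∪ new.toFinset := by
  unfold repl at h
  simp only [Bool.and_eq_true, List.all_eq_true, Bool.or_eq_true, Bool.not_eq_true', mem_iff] at h
  obtain ⟨⟨h1, h2⟩, h3⟩ := h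
  ext p
  rw [Finset.mem_union, Finset.mem_sdiff, List.mem_toFinset, List.mem_toFinset, List.mem_toFinset,
    List.mem_toFinset]
  constructor
  · intro hp
    rcases h1 p hp with h | ⟨h, h'⟩
    · exact Or.inr h
    · rw [← Bool.not_eq_true, mem_iff] at h'
      exact Or.inl ⟨h, h'⟩
  · rintro (⟨h, h'⟩ | h)
    · exact (h2 p h).resolve_left h'
    · exact h3 p h

/-- test for the twist of the hexagon `a b c d e f` -/
def twistOk (l l' : List (ℕ × ℕ)) : List ℕ → Bool
  | [a, b, c, d, e, f] => Nat.blt a b && Nat.blt b c && Nat.blt c d && Nat.blt d e && Nat.blt e f &&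
    ed 14 l a b && ed 14 l b c && ed 14 l c d && ed 14 l d e && ed 14 l e f && ed 14 l a f &&
    ((mem l a c && mem l c e && mem l a e &&
      repl l l' [(a, c), (c, e), (a, e)] [(b, d), (d, f), (b, f)]) ||
     (mem l b d && mem l d f && mem l b f &&
      repl l l' [(b, d), (d, f), (b, f)] [(a, c), (c, e), (a, e)]))
  | _ => false

theorem twistOk_spec {l l' : List (ℕ × ℕ)} {h : List ℕ} (hm : twistOk l l' h = true) :
    Twist 14 l.toFinset l'.toFinset := by
  unfold twistOk at hm
  split at hm
  · simp only [Bool.and_eq_true, Bool.or_eq_true, Nat.blt_eq, ed_iff, mem_iff] at hm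
    obtain ⟨⟨⟨⟨⟨⟨⟨⟨⟨⟨⟨h1, h2⟩, h3⟩, h4⟩, h5⟩, h6⟩, h7⟩, h8⟩, h9⟩, h10⟩, h11⟩, h12⟩ := hm
    refine ⟨_, _, _, _, _, _, h1, h2, h3, h4, h5, h6, h7, h8, h9, h10, h11, ?_⟩
    rcases h12 with ⟨⟨⟨h13, h14⟩, h15⟩, h16⟩ | ⟨⟨⟨h13, h14⟩, h15⟩, h16⟩
    · left
      refine ⟨List.mem_toFinset.2 h13, List.mem_toFinset.2 h14, List.mem_toFinset.2 h15, ?_⟩
      rw [repl_spec h16]
      simp [List.toFinset_cons]
    · right
      refine ⟨List.mem_toFinset.2 h13, List.mem_toFinset.2 h14, List.mem_toFinset.2 h15, ?_⟩
      rw [repl_spec h16]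
      simp [List.toFinset_cons]
  · exact absurd hm (by simp)

/-- Check of a list of triples `(l, l', h)`: the triangulation `l` arises from the already known
triangulation `l'` by the twist of the hexagon `h`. -/
def check : List ℕ → List (List (ℕ × ℕ) × List (ℕ × ℕ) × List ℕ) → Bool
  | _, [] => true
  | known, (l, l', h) :: t => (known.any fun m => Nat.beq m (encode l')) && good l && good l' &&
    twistOk l' l h && check (encode l :: known) t

/-- the codes known at the end -/
def final : List ℕ → List (List (ℕ × ℕ) × List (ℕ × ℕ) × List ℕ) → List ℕ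
  | known, [] => known
  | known, (l, _, _) :: t => final (encode l :: known) t

theorem good_bound {l : List (ℕ × ℕ)} (h : good l = true) : ∀ p ∈ l, p.2 < 16 := by
  intro p hp
  have := (good_spec h).1.diagonal p (List.mem_toFinset.2 hp)
  simp only [IsDiagonal] at this
  omega

theorem encode_inj {l l' : List (ℕ × ℕ)} (hl : ∀ p ∈ l, p.2 < 16) (hl' : ∀ p ∈ l', p.2 < 16)
    (h : encode l = encode l') : l.toFinset = l'.toFinset := by
  ext ⟨a, b⟩
  rw [List.mem_toFinset, List.mem_toFinset]
  constructor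
  · intro hp
    have hb : b < 16 := hl _ hp
    rw [← testBit_encode hb l' hl', ← h, testBit_encode hb l hl]
    exact hp
  · intro hp
    have hb : b < 16 := hl' _ hp
    rw [← testBit_encode hb l hl, h, testBit_encode hb l' hl']
    exact hp

/-- `m` is the code of a list whose triangulation can be reached from `base` -/
def Known (base : Tri 14) (m : ℕ) : Prop :=
  ∃ l : List (ℕ × ℕ), (∀ p ∈ l, p.2 < 16) ∧ encode l = m ∧
    ∀ T : Tri 14, T.1 = l.toFinset → (H 14).Reachable base T

theorem check_spec (base : Tri 14) :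
    ∀ (t : List (List (ℕ × ℕ) × List (ℕ × ℕ) × List ℕ)) (known : List ℕ),
    (∀ m ∈ known, Known base m) → check known t = true → ∀ m ∈ final known t, Known base m := by
  intro t
  induction t with
  | nil => intro known h _ m hm; exact h m hm
  | cons x t ih =>
    obtain ⟨l, l', g⟩ := x
    intro known h hc
    simp only [check, Bool.and_eq_true, List.any_eq_true, Nat.beq_eq] at hc
    obtain ⟨⟨⟨⟨⟨m', h1, h1'⟩, h2⟩, h2'⟩, h3⟩, h4⟩ := hc
    refine ih (encode l :: known) ?_ h4
    intro x hx
    rcases List.mem_cons.1 hx with rfl | hx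
    · refine ⟨l, good_bound h2, rfl, ?_⟩
      intro T hT
      obtain ⟨l2, b2, e2, r2⟩ := h m' h1
      have hr : (H 14).Reachable base ⟨l'.toFinset, good_spec h2'⟩ :=
        r2 _ (encode_inj (good_bound h2') b2 (by rw [e2, h1']))
      have ht : Twist 14 l'.toFinset T.1 := by rw [hT]; exact twistOk_spec h3
      by_cases hne : (⟨l'.toFinset, good_spec h2'⟩ : Tri 14) = T
      · rw [← hne]; exact hr
      · exact hr.trans (SimpleGraph.Adj.reachable ⟨hne, Or.inl ht⟩)
    · exact h x hx

theorem connected_of_check (b : List (ℕ × ℕ)) (hb : good b = true)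
    (t : List (List (ℕ × ℕ) × List (ℕ × ℕ) × List ℕ)) (hc : check [encode b] t = true)
    (hf : ((enum 14 1 14).all fun m => (final [encode b] t).any fun m' => Nat.beq m m') = true) :
    (H 14).Connected := by
  have key := check_spec ⟨b.toFinset, good_spec hb⟩ t [encode b] (by
    intro m hm
    rw [List.mem_singleton] at hm
    subst hm
    refine ⟨b, good_bound hb, rfl, ?_⟩
    intro T hT
    have : (⟨b.toFinset, good_spec hb⟩ : Tri 14) = T := Subtype.ext hT.symm
    rw [this]) hc
  have hall : ∀ T : Tri 14, (H 14).Reachable ⟨b.toFinset, good_spec hb⟩ T := by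
    intro T
    obtain ⟨m, hm, hT⟩ := exists_code (by norm_num) (by norm_num) T.2.1 T.2.2
    rw [List.all_eq_true] at hf
    have h1 := hf m hm
    rw [List.any_eq_true] at h1
    obtain ⟨m', h2, h3⟩ := h1
    rw [Nat.beq_eq] at h3
    subst h3
    obtain ⟨l, h4, h5, h6⟩ := key m h2
    exact h6 T (hT l h4 h5)
  rw [SimpleGraph.connected_iff_exists_forall_reachable]
  exact ⟨_, hall⟩

end Pool.Agent.Z45.TwistGraph
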