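import Mathlib
import Pool.Agent.Z45.TwistProof

set_option autoImplicit false

namespace Pool.Agent.Z45.TwistGraph

/-- the first triangulation -/
def baseTri : List (ℕ × ℕ) :=
  [(1, 3), (3, 5), (3, 13), (3, 14), (5, 7), (5, 12), (5, 13), (7, 9), (7, 11), (7, 12), (9, 11)]

/-- a spanning tree of the twist graph: `(l, l', h)` means that the triangulation `l` arises from
`l'` by the twist of the hexagon `h` -/
def table : List (List (ℕ × ℕ) × List (ℕ × ℕ) × List ℕ) := [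
  ([(1, 3), (3, 5), (3, 13), (3, 14), (5, 13), (6, 11), (6, 13), (7, 9), (7, 11), (9, 11), (11, 13)],
   [(1, 3), (3, 5), (3, 13), (3, 14), (5, 7), (5, 12), (5, 13), (7, 9), (7, 11), (7, 12), (9, 11)],
   [5, 6, 7, 11, 12, 13]),
  ([(1, 3), (3, 5), (3, 13), (3, 14), (5, 7), (5, 12), (5, 13), (7, 12), (8, 10), (8, 12), (10, 12)],
   [(1, 3), (3, 5), (3, 13), (3, 14), (5, 7), (5, 12), (5, 13), (7, 9), (7, 11), (7, 12), (9, 11)],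
   [7, 8, 9, 10, 11, 12]),
  ([(1, 3), (3, 14), (4, 12), (4, 14), (5, 7), (5, 12), (7, 9), (7, 11), (7, 12), (9, 11), (12, 14)],
   [(1, 3), (3, 5), (3, 13), (3, 14), (5, 7), (5, 12), (5, 13), (7, 9), (7, 11), (7, 12), (9, 11)],
   [3, 4, 5, 12, 13, 14]),
  ([(1, 3), (3, 14), (4, 6), (4, 14), (6, 11), (6, 13), (6, 14), (7, 9), (7, 11), (9, 11), (11, 13)],
   [(1, 3), (3, 5), (3, 13), (3, 14), (5, 13), (6, 11), (6, 13), (7, 9), (7, 11), (9, 11), (11, 13)],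
   [3, 4, 5, 6, 13, 14]),
  ([(1, 3), (3, 5), (3, 13), (3, 14), (5, 13), (6, 8), (6, 10), (6, 11), (6, 13), (8, 10), (11, 13)],
   [(1, 3), (3, 5), (3, 13), (3, 14), (5, 13), (6, 11), (6, 13), (7, 9), (7, 11), (9, 11), (11, 13)],
   [6, 7, 8, 9, 10, 11]),
  ([(1, 3), (3, 5), (3, 13), (3, 14), (5, 13), (6, 8), (6, 13), (8, 10), (8, 12), (8, 13), (10, 12)],
   [(1, 3), (3, 5), (3, 13), (3, 14), (5, 7), (5, 12), (5, 13), (7, 12), (8, 10), (8, 12), (10, 12)],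
   [5, 6, 7, 8, 12, 13]),
  ([(1, 3), (3, 14), (4, 12), (4, 14), (5, 7), (5, 12), (7, 12), (8, 10), (8, 12), (10, 12), (12, 14)],
   [(1, 3), (3, 5), (3, 13), (3, 14), (5, 7), (5, 12), (5, 13), (7, 12), (8, 10), (8, 12), (10, 12)],
   [3, 4, 5, 12, 13, 14]),
  ([(1, 3), (3, 14), (4, 6), (4, 11), (4, 12), (4, 14), (6, 11), (7, 9), (7, 11), (9, 11), (12, 14)],
   [(1, 3), (3, 14), (4, 12), (4, 14), (5, 7), (5, 12), (7, 9), (7, 11), (7, 12), (9, 11), (12, 14)],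
   [4, 5, 6, 7, 11, 12]),
  ([(1, 3), (3, 14), (4, 6), (4, 14), (6, 14), (7, 9), (7, 11), (7, 12), (7, 14), (9, 11), (12, 14)],
   [(1, 3), (3, 14), (4, 6), (4, 14), (6, 11), (6, 13), (6, 14), (7, 9), (7, 11), (9, 11), (11, 13)],
   [6, 7, 11, 12, 13, 14]),
  ([(1, 3), (3, 14), (4, 6), (4, 14), (6, 8), (6, 10), (6, 11), (6, 13), (6, 14), (8, 10), (11, 13)],
   [(1, 3), (3, 14), (4, 6), (4, 14), (6, 11), (6, 13), (6, 14), (7, 9), (7, 11), (9, 11), (11, 13)],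
   [6, 7, 8, 9, 10, 11]),
  ([(1, 3), (3, 5), (3, 13), (3, 14), (5, 10), (5, 12), (5, 13), (6, 8), (6, 10), (8, 10), (10, 12)],
   [(1, 3), (3, 5), (3, 13), (3, 14), (5, 13), (6, 8), (6, 10), (6, 11), (6, 13), (8, 10), (11, 13)],
   [5, 6, 10, 11, 12, 13]),
  ([(1, 3), (3, 5), (3, 13), (3, 14), (5, 13), (6, 8), (6, 13), (8, 13), (9, 11), (9, 13), (11, 13)],
   [(1, 3), (3, 5), (3, 13), (3, 14), (5, 13), (6, 8), (6, 13), (8, 10), (8, 12), (8, 13), (10, 12)],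
   [8, 9, 10, 11, 12, 13]),
  ([(1, 3), (3, 14), (4, 6), (4, 14), (6, 8), (6, 13), (6, 14), (8, 10), (8, 12), (8, 13), (10, 12)],
   [(1, 3), (3, 5), (3, 13), (3, 14), (5, 13), (6, 8), (6, 13), (8, 10), (8, 12), (8, 13), (10, 12)],
   [3, 4, 5, 6, 13, 14]),
  ([(1, 3), (3, 14), (4, 6), (4, 8), (4, 12), (4, 14), (6, 8), (8, 10), (8, 12), (10, 12), (12, 14)],
   [(1, 3), (3, 14), (4, 12), (4, 14), (5, 7), (5, 12), (7, 12), (8, 10), (8, 12), (10, 12), (12, 14)],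
   [4, 5, 6, 7, 8, 12]),
  ([(1, 3), (3, 11), (3, 13), (3, 14), (4, 6), (4, 11), (6, 11), (7, 9), (7, 11), (9, 11), (11, 13)],
   [(1, 3), (3, 14), (4, 6), (4, 11), (4, 12), (4, 14), (6, 11), (7, 9), (7, 11), (9, 11), (12, 14)],
   [3, 4, 11, 12, 13, 14]),
  ([(1, 3), (3, 14), (4, 6), (4, 11), (4, 12), (4, 14), (6, 8), (6, 10), (6, 11), (8, 10), (12, 14)],
   [(1, 3), (3, 14), (4, 6), (4, 11), (4, 12), (4, 14), (6, 11), (7, 9), (7, 11), (9, 11), (12, 14)],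
   [6, 7, 8, 9, 10, 11]),
  ([(1, 3), (3, 14), (4, 6), (4, 14), (6, 14), (7, 12), (7, 14), (8, 10), (8, 12), (10, 12), (12, 14)],
   [(1, 3), (3, 14), (4, 6), (4, 14), (6, 14), (7, 9), (7, 11), (7, 12), (7, 14), (9, 11), (12, 14)],
   [7, 8, 9, 10, 11, 12]),
  ([(1, 3), (3, 5), (3, 7), (3, 14), (5, 7), (7, 9), (7, 11), (7, 12), (7, 14), (9, 11), (12, 14)],
   [(1, 3), (3, 14), (4, 6), (4, 14), (6, 14), (7, 9), (7, 11), (7, 12), (7, 14), (9, 11), (12, 14)],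
   [3, 4, 5, 6, 7, 14]),
  ([(1, 3), (3, 14), (4, 6), (4, 14), (6, 8), (6, 10), (6, 14), (8, 10), (10, 12), (10, 14), (12, 14)],
   [(1, 3), (3, 14), (4, 6), (4, 14), (6, 8), (6, 10), (6, 11), (6, 13), (6, 14), (8, 10), (11, 13)],
   [6, 10, 11, 12, 13, 14]),
  ([(1, 3), (3, 14), (4, 12), (4, 14), (5, 10), (5, 12), (6, 8), (6, 10), (8, 10), (10, 12), (12, 14)],
   [(1, 3), (3, 5), (3, 13), (3, 14), (5, 10), (5, 12), (5, 13), (6, 8), (6, 10), (8, 10), (10, 12)],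
   [3, 4, 5, 12, 13, 14]),
  ([(1, 3), (3, 5), (3, 13), (3, 14), (5, 7), (5, 9), (5, 10), (5, 12), (5, 13), (7, 9), (10, 12)],
   [(1, 3), (3, 5), (3, 13), (3, 14), (5, 10), (5, 12), (5, 13), (6, 8), (6, 10), (8, 10), (10, 12)],
   [5, 6, 7, 8, 9, 10]),
  ([(1, 3), (3, 14), (4, 6), (4, 14), (6, 8), (6, 13), (6, 14), (8, 13), (9, 11), (9, 13), (11, 13)],
   [(1, 3), (3, 5), (3, 13), (3, 14), (5, 13), (6, 8), (6, 13), (8, 13), (9, 11), (9, 13), (11, 13)],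
   [3, 4, 5, 6, 13, 14]),
  ([(1, 3), (3, 5), (3, 13), (3, 14), (5, 7), (5, 9), (5, 13), (7, 9), (9, 11), (9, 13), (11, 13)],
   [(1, 3), (3, 5), (3, 13), (3, 14), (5, 13), (6, 8), (6, 13), (8, 13), (9, 11), (9, 13), (11, 13)],
   [5, 6, 7, 8, 9, 13]),
  ([(1, 3), (3, 14), (4, 6), (4, 8), (4, 9), (4, 11), (4, 12), (4, 14), (6, 8), (9, 11), (12, 14)],
   [(1, 3), (3, 14), (4, 6), (4, 8), (4, 12), (4, 14), (6, 8), (8, 10), (8, 12), (10, 12), (12, 14)],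
   [4, 8, 9, 10, 11, 12]),
  ([(1, 3), (3, 8), (3, 13), (3, 14), (4, 6), (4, 8), (6, 8), (8, 10), (8, 12), (8, 13), (10, 12)],
   [(1, 3), (3, 14), (4, 6), (4, 8), (4, 12), (4, 14), (6, 8), (8, 10), (8, 12), (10, 12), (12, 14)],
   [3, 4, 8, 12, 13, 14]),
  ([(1, 3), (3, 5), (3, 7), (3, 11), (3, 13), (3, 14), (5, 7), (7, 9), (7, 11), (9, 11), (11, 13)],
   [(1, 3), (3, 11), (3, 13), (3, 14), (4, 6), (4, 11), (6, 11), (7, 9), (7, 11), (9, 11), (11, 13)],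
   [3, 4, 5, 6, 7, 11]),
  ([(1, 3), (3, 11), (3, 13), (3, 14), (4, 6), (4, 11), (6, 8), (6, 10), (6, 11), (8, 10), (11, 13)],
   [(1, 3), (3, 11), (3, 13), (3, 14), (4, 6), (4, 11), (6, 11), (7, 9), (7, 11), (9, 11), (11, 13)],
   [6, 7, 8, 9, 10, 11]),
  ([(1, 3), (3, 5), (3, 7), (3, 14), (5, 7), (7, 12), (7, 14), (8, 10), (8, 12), (10, 12), (12, 14)],
   [(1, 3), (3, 14), (4, 6), (4, 14), (6, 14), (7, 12), (7, 14), (8, 10), (8, 12), (10, 12), (12, 14)],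
   [3, 4, 5, 6, 7, 14]),
  ([(1, 3), (1, 5), (1, 12), (3, 5), (5, 7), (5, 12), (7, 9), (7, 11), (7, 12), (9, 11), (12, 14)],
   [(1, 3), (3, 5), (3, 7), (3, 14), (5, 7), (7, 9), (7, 11), (7, 12), (7, 14), (9, 11), (12, 14)],
   [1, 3, 5, 7, 12, 14]),
  ([(1, 3), (3, 14), (4, 6), (4, 14), (6, 14), (7, 9), (7, 14), (9, 14), (10, 12), (10, 14), (12, 14)],
   [(1, 3), (3, 14), (4, 6), (4, 14), (6, 8), (6, 10), (6, 14), (8, 10), (10, 12), (10, 14), (12, 14)],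
   [6, 7, 8, 9, 10, 14]),
  ([(1, 3), (3, 5), (3, 10), (3, 14), (5, 10), (6, 8), (6, 10), (8, 10), (10, 12), (10, 14), (12, 14)],
   [(1, 3), (3, 14), (4, 6), (4, 14), (6, 8), (6, 10), (6, 14), (8, 10), (10, 12), (10, 14), (12, 14)],
   [3, 4, 5, 6, 10, 14]),
  ([(1, 3), (3, 14), (4, 12), (4, 14), (5, 7), (5, 9), (5, 10), (5, 12), (7, 9), (10, 12), (12, 14)],
   [(1, 3), (3, 14), (4, 12), (4, 14), (5, 10), (5, 12), (6, 8), (6, 10), (8, 10), (10, 12), (12, 14)],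
   [5, 6, 7, 8, 9, 10]),
  ([(1, 3), (3, 14), (4, 6), (4, 14), (6, 14), (7, 9), (7, 14), (9, 11), (9, 13), (9, 14), (11, 13)],
   [(1, 3), (3, 14), (4, 6), (4, 14), (6, 8), (6, 13), (6, 14), (8, 13), (9, 11), (9, 13), (11, 13)],
   [6, 7, 8, 9, 13, 14]),
  ([(1, 3), (3, 14), (4, 9), (4, 14), (5, 7), (5, 9), (7, 9), (9, 11), (9, 13), (9, 14), (11, 13)],
   [(1, 3), (3, 5), (3, 13), (3, 14), (5, 7), (5, 9), (5, 13), (7, 9), (9, 11), (9, 13), (11, 13)],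
   [3, 4, 5, 9, 13, 14]),
  ([(1, 3), (3, 14), (4, 9), (4, 11), (4, 12), (4, 14), (5, 7), (5, 9), (7, 9), (9, 11), (12, 14)],
   [(1, 3), (3, 14), (4, 6), (4, 8), (4, 9), (4, 11), (4, 12), (4, 14), (6, 8), (9, 11), (12, 14)],
   [4, 5, 6, 7, 8, 9]),
  ([(1, 3), (3, 11), (3, 13), (3, 14), (4, 6), (4, 8), (4, 9), (4, 11), (6, 8), (9, 11), (11, 13)],
   [(1, 3), (3, 14), (4, 6), (4, 8), (4, 9), (4, 11), (4, 12), (4, 14), (6, 8), (9, 11), (12, 14)],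
   [3, 4, 11, 12, 13, 14]),
  ([(1, 3), (3, 8), (3, 13), (3, 14), (4, 6), (4, 8), (6, 8), (8, 13), (9, 11), (9, 13), (11, 13)],
   [(1, 3), (3, 8), (3, 13), (3, 14), (4, 6), (4, 8), (6, 8), (8, 10), (8, 12), (8, 13), (10, 12)],
   [8, 9, 10, 11, 12, 13]),
  ([(1, 3), (3, 5), (3, 7), (3, 8), (3, 13), (3, 14), (5, 7), (8, 10), (8, 12), (8, 13), (10, 12)],
   [(1, 3), (3, 8), (3, 13), (3, 14), (4, 6), (4, 8), (6, 8), (8, 10), (8, 12), (8, 13), (10, 12)],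
   [3, 4, 5, 6, 7, 8]),
  ([(1, 3), (3, 5), (3, 7), (3, 8), (3, 10), (3, 11), (3, 13), (3, 14), (5, 7), (8, 10), (11, 13)],
   [(1, 3), (3, 5), (3, 7), (3, 11), (3, 13), (3, 14), (5, 7), (7, 9), (7, 11), (9, 11), (11, 13)],
   [3, 7, 8, 9, 10, 11]),
  ([(1, 3), (3, 5), (3, 10), (3, 11), (3, 13), (3, 14), (5, 10), (6, 8), (6, 10), (8, 10), (11, 13)],
   [(1, 3), (3, 11), (3, 13), (3, 14), (4, 6), (4, 11), (6, 8), (6, 10), (6, 11), (8, 10), (11, 13)],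
   [3, 4, 5, 6, 10, 11]),
  ([(1, 3), (1, 5), (1, 12), (3, 5), (5, 7), (5, 12), (7, 12), (8, 10), (8, 12), (10, 12), (12, 14)],
   [(1, 3), (3, 5), (3, 7), (3, 14), (5, 7), (7, 12), (7, 14), (8, 10), (8, 12), (10, 12), (12, 14)],
   [1, 3, 5, 7, 12, 14]),
  ([(1, 12), (2, 4), (2, 12), (4, 12), (5, 7), (5, 12), (7, 9), (7, 11), (7, 12), (9, 11), (12, 14)],
   [(1, 3), (1, 5), (1, 12), (3, 5), (5, 7), (5, 12), (7, 9), (7, 11), (7, 12), (9, 11), (12, 14)],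
   [1, 2, 3, 4, 5, 12]),
  ([(1, 3), (1, 5), (1, 6), (1, 11), (1, 12), (3, 5), (6, 11), (7, 9), (7, 11), (9, 11), (12, 14)],
   [(1, 3), (1, 5), (1, 12), (3, 5), (5, 7), (5, 12), (7, 9), (7, 11), (7, 12), (9, 11), (12, 14)],
   [1, 5, 6, 7, 11, 12]),
  ([(1, 3), (3, 5), (3, 7), (3, 14), (5, 7), (7, 9), (7, 14), (9, 14), (10, 12), (10, 14), (12, 14)],
   [(1, 3), (3, 14), (4, 6), (4, 14), (6, 14), (7, 9), (7, 14), (9, 14), (10, 12), (10, 14), (12, 14)],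
   [3, 4, 5, 6, 7, 14]),
  ([(1, 3), (3, 5), (3, 10), (3, 14), (5, 7), (5, 9), (5, 10), (7, 9), (10, 12), (10, 14), (12, 14)],
   [(1, 3), (3, 5), (3, 10), (3, 14), (5, 10), (6, 8), (6, 10), (8, 10), (10, 12), (10, 14), (12, 14)],
   [5, 6, 7, 8, 9, 10]),
  ([(1, 3), (1, 5), (1, 12), (3, 5), (5, 10), (5, 12), (6, 8), (6, 10), (8, 10), (10, 12), (12, 14)],
   [(1, 3), (3, 5), (3, 10), (3, 14), (5, 10), (6, 8), (6, 10), (8, 10), (10, 12), (10, 14), (12, 14)],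
   [1, 3, 5, 10, 12, 14]),
  ([(1, 3), (3, 5), (3, 7), (3, 14), (5, 7), (7, 9), (7, 14), (9, 11), (9, 13), (9, 14), (11, 13)],
   [(1, 3), (3, 14), (4, 6), (4, 14), (6, 14), (7, 9), (7, 14), (9, 11), (9, 13), (9, 14), (11, 13)],
   [3, 4, 5, 6, 7, 14]),
  ([(1, 3), (3, 14), (4, 9), (4, 14), (5, 7), (5, 9), (7, 9), (9, 14), (10, 12), (10, 14), (12, 14)],
   [(1, 3), (3, 14), (4, 9), (4, 14), (5, 7), (5, 9), (7, 9), (9, 11), (9, 13), (9, 14), (11, 13)],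
   [9, 10, 11, 12, 13, 14]),
  ([(1, 3), (3, 14), (4, 6), (4, 8), (4, 9), (4, 14), (6, 8), (9, 11), (9, 13), (9, 14), (11, 13)],
   [(1, 3), (3, 14), (4, 9), (4, 14), (5, 7), (5, 9), (7, 9), (9, 11), (9, 13), (9, 14), (11, 13)],
   [4, 5, 6, 7, 8, 9]),
  ([(1, 3), (3, 11), (3, 13), (3, 14), (4, 9), (4, 11), (5, 7), (5, 9), (7, 9), (9, 11), (11, 13)],
   [(1, 3), (3, 14), (4, 9), (4, 11), (4, 12), (4, 14), (5, 7), (5, 9), (7, 9), (9, 11), (12, 14)],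
   [3, 4, 11, 12, 13, 14]),
  ([(1, 3), (3, 8), (3, 10), (3, 11), (3, 13), (3, 14), (4, 6), (4, 8), (6, 8), (8, 10), (11, 13)],
   [(1, 3), (3, 11), (3, 13), (3, 14), (4, 6), (4, 8), (4, 9), (4, 11), (6, 8), (9, 11), (11, 13)],
   [3, 4, 8, 9, 10, 11]),
  ([(1, 3), (3, 5), (3, 7), (3, 8), (3, 13), (3, 14), (5, 7), (8, 13), (9, 11), (9, 13), (11, 13)],
   [(1, 3), (3, 8), (3, 13), (3, 14), (4, 6), (4, 8), (6, 8), (8, 13), (9, 11), (9, 13), (11, 13)],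
   [3, 4, 5, 6, 7, 8]),
  ([(1, 3), (3, 5), (3, 7), (3, 8), (3, 10), (3, 14), (5, 7), (8, 10), (10, 12), (10, 14), (12, 14)],
   [(1, 3), (3, 5), (3, 7), (3, 8), (3, 10), (3, 11), (3, 13), (3, 14), (5, 7), (8, 10), (11, 13)],
   [3, 10, 11, 12, 13, 14]),
  ([(1, 3), (3, 5), (3, 10), (3, 11), (3, 13), (3, 14), (5, 7), (5, 9), (5, 10), (7, 9), (11, 13)],
   [(1, 3), (3, 5), (3, 10), (3, 11), (3, 13), (3, 14), (5, 10), (6, 8), (6, 10), (8, 10), (11, 13)],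
   [5, 6, 7, 8, 9, 10]),
  ([(1, 12), (2, 4), (2, 12), (4, 12), (5, 7), (5, 12), (7, 12), (8, 10), (8, 12), (10, 12), (12, 14)],
   [(1, 3), (1, 5), (1, 12), (3, 5), (5, 7), (5, 12), (7, 12), (8, 10), (8, 12), (10, 12), (12, 14)],
   [1, 2, 3, 4, 5, 12]),
  ([(1, 3), (1, 5), (1, 6), (1, 8), (1, 12), (3, 5), (6, 8), (8, 10), (8, 12), (10, 12), (12, 14)],
   [(1, 3), (1, 5), (1, 12), (3, 5), (5, 7), (5, 12), (7, 12), (8, 10), (8, 12), (10, 12), (12, 14)],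
   [1, 5, 6, 7, 8, 12]),
  ([(1, 12), (2, 4), (2, 12), (4, 6), (4, 11), (4, 12), (6, 11), (7, 9), (7, 11), (9, 11), (12, 14)],
   [(1, 12), (2, 4), (2, 12), (4, 12), (5, 7), (5, 12), (7, 9), (7, 11), (7, 12), (9, 11), (12, 14)],
   [4, 5, 6, 7, 11, 12]),
  ([(1, 6), (1, 11), (1, 12), (2, 4), (2, 6), (4, 6), (6, 11), (7, 9), (7, 11), (9, 11), (12, 14)],
   [(1, 3), (1, 5), (1, 6), (1, 11), (1, 12), (3, 5), (6, 11), (7, 9), (7, 11), (9, 11), (12, 14)],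
   [1, 2, 3, 4, 5, 6]),
  ([(1, 3), (1, 5), (1, 6), (1, 11), (1, 12), (3, 5), (6, 8), (6, 10), (6, 11), (8, 10), (12, 14)],
   [(1, 3), (1, 5), (1, 6), (1, 11), (1, 12), (3, 5), (6, 11), (7, 9), (7, 11), (9, 11), (12, 14)],
   [6, 7, 8, 9, 10, 11]),
  ([(1, 3), (1, 5), (1, 9), (3, 5), (5, 7), (5, 9), (7, 9), (9, 14), (10, 12), (10, 14), (12, 14)],
   [(1, 3), (3, 5), (3, 7), (3, 14), (5, 7), (7, 9), (7, 14), (9, 14), (10, 12), (10, 14), (12, 14)],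
   [1, 3, 5, 7, 9, 14]),
  ([(1, 3), (1, 5), (1, 12), (3, 5), (5, 7), (5, 9), (5, 10), (5, 12), (7, 9), (10, 12), (12, 14)],
   [(1, 3), (3, 5), (3, 10), (3, 14), (5, 7), (5, 9), (5, 10), (7, 9), (10, 12), (10, 14), (12, 14)],
   [1, 3, 5, 10, 12, 14]),
  ([(1, 12), (2, 4), (2, 12), (4, 12), (5, 10), (5, 12), (6, 8), (6, 10), (8, 10), (10, 12), (12, 14)],
   [(1, 3), (1, 5), (1, 12), (3, 5), (5, 10), (5, 12), (6, 8), (6, 10), (8, 10), (10, 12), (12, 14)],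
   [1, 2, 3, 4, 5, 12]),
  ([(1, 3), (1, 5), (1, 9), (3, 5), (5, 7), (5, 9), (7, 9), (9, 11), (9, 13), (9, 14), (11, 13)],
   [(1, 3), (3, 5), (3, 7), (3, 14), (5, 7), (7, 9), (7, 14), (9, 11), (9, 13), (9, 14), (11, 13)],
   [1, 3, 5, 7, 9, 14]),
  ([(1, 3), (3, 14), (4, 6), (4, 8), (4, 9), (4, 14), (6, 8), (9, 14), (10, 12), (10, 14), (12, 14)],
   [(1, 3), (3, 14), (4, 9), (4, 14), (5, 7), (5, 9), (7, 9), (9, 14), (10, 12), (10, 14), (12, 14)],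
   [4, 5, 6, 7, 8, 9]),
  ([(1, 3), (3, 8), (3, 10), (3, 14), (4, 6), (4, 8), (6, 8), (8, 10), (10, 12), (10, 14), (12, 14)],
   [(1, 3), (3, 8), (3, 10), (3, 11), (3, 13), (3, 14), (4, 6), (4, 8), (6, 8), (8, 10), (11, 13)],
   [3, 10, 11, 12, 13, 14]),
  ([(1, 3), (1, 8), (1, 12), (3, 5), (3, 7), (3, 8), (5, 7), (8, 10), (8, 12), (10, 12), (12, 14)],
   [(1, 3), (3, 5), (3, 7), (3, 8), (3, 10), (3, 14), (5, 7), (8, 10), (10, 12), (10, 14), (12, 14)],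
   [1, 3, 8, 10, 12, 14]),
  ([(1, 12), (2, 4), (2, 12), (4, 6), (4, 8), (4, 12), (6, 8), (8, 10), (8, 12), (10, 12), (12, 14)],
   [(1, 12), (2, 4), (2, 12), (4, 12), (5, 7), (5, 12), (7, 12), (8, 10), (8, 12), (10, 12), (12, 14)],
   [4, 5, 6, 7, 8, 12]),
  ([(1, 6), (1, 8), (1, 12), (2, 4), (2, 6), (4, 6), (6, 8), (8, 10), (8, 12), (10, 12), (12, 14)],
   [(1, 3), (1, 5), (1, 6), (1, 8), (1, 12), (3, 5), (6, 8), (8, 10), (8, 12), (10, 12), (12, 14)],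
   [1, 2, 3, 4, 5, 6]),
  ([(1, 3), (1, 5), (1, 6), (3, 5), (6, 8), (6, 10), (6, 14), (8, 10), (10, 12), (10, 14), (12, 14)],
   [(1, 3), (1, 5), (1, 6), (1, 8), (1, 12), (3, 5), (6, 8), (8, 10), (8, 12), (10, 12), (12, 14)],
   [1, 6, 8, 10, 12, 14]),
  ([(1, 3), (1, 5), (1, 6), (1, 8), (1, 9), (1, 11), (1, 12), (3, 5), (6, 8), (9, 11), (12, 14)],
   [(1, 3), (1, 5), (1, 6), (1, 8), (1, 12), (3, 5), (6, 8), (8, 10), (8, 12), (10, 12), (12, 14)],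
   [1, 8, 9, 10, 11, 12]),
  ([(1, 3), (1, 11), (1, 12), (3, 11), (4, 6), (4, 11), (6, 11), (7, 9), (7, 11), (9, 11), (12, 14)],
   [(1, 12), (2, 4), (2, 12), (4, 6), (4, 11), (4, 12), (6, 11), (7, 9), (7, 11), (9, 11), (12, 14)],
   [1, 2, 3, 4, 11, 12]),
  ([(1, 12), (2, 4), (2, 12), (4, 6), (4, 11), (4, 12), (6, 8), (6, 10), (6, 11), (8, 10), (12, 14)],
   [(1, 12), (2, 4), (2, 12), (4, 6), (4, 11), (4, 12), (6, 11), (7, 9), (7, 11), (9, 11), (12, 14)],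
   [6, 7, 8, 9, 10, 11]),
  ([(1, 12), (2, 4), (2, 6), (2, 7), (2, 12), (4, 6), (7, 9), (7, 11), (7, 12), (9, 11), (12, 14)],
   [(1, 6), (1, 11), (1, 12), (2, 4), (2, 6), (4, 6), (6, 11), (7, 9), (7, 11), (9, 11), (12, 14)],
   [1, 2, 6, 7, 11, 12]),
  ([(1, 6), (1, 11), (1, 12), (2, 4), (2, 6), (4, 6), (6, 8), (6, 10), (6, 11), (8, 10), (12, 14)],
   [(1, 6), (1, 11), (1, 12), (2, 4), (2, 6), (4, 6), (6, 11), (7, 9), (7, 11), (9, 11), (12, 14)],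
   [6, 7, 8, 9, 10, 11]),
  ([(1, 9), (2, 4), (2, 9), (4, 9), (5, 7), (5, 9), (7, 9), (9, 14), (10, 12), (10, 14), (12, 14)],
   [(1, 3), (1, 5), (1, 9), (3, 5), (5, 7), (5, 9), (7, 9), (9, 14), (10, 12), (10, 14), (12, 14)],
   [1, 2, 3, 4, 5, 9]),
  ([(1, 3), (1, 5), (1, 6), (1, 8), (1, 9), (3, 5), (6, 8), (9, 14), (10, 12), (10, 14), (12, 14)],
   [(1, 3), (1, 5), (1, 9), (3, 5), (5, 7), (5, 9), (7, 9), (9, 14), (10, 12), (10, 14), (12, 14)],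
   [1, 5, 6, 7, 8, 9]),
  ([(1, 12), (2, 4), (2, 12), (4, 12), (5, 7), (5, 9), (5, 10), (5, 12), (7, 9), (10, 12), (12, 14)],
   [(1, 3), (1, 5), (1, 12), (3, 5), (5, 7), (5, 9), (5, 10), (5, 12), (7, 9), (10, 12), (12, 14)],
   [1, 2, 3, 4, 5, 12]),
  ([(1, 3), (1, 5), (1, 9), (1, 11), (1, 12), (3, 5), (5, 7), (5, 9), (7, 9), (9, 11), (12, 14)],
   [(1, 3), (1, 5), (1, 12), (3, 5), (5, 7), (5, 9), (5, 10), (5, 12), (7, 9), (10, 12), (12, 14)],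
   [1, 5, 9, 10, 11, 12]),
  ([(1, 9), (2, 4), (2, 9), (4, 9), (5, 7), (5, 9), (7, 9), (9, 11), (9, 13), (9, 14), (11, 13)],
   [(1, 3), (1, 5), (1, 9), (3, 5), (5, 7), (5, 9), (7, 9), (9, 11), (9, 13), (9, 14), (11, 13)],
   [1, 2, 3, 4, 5, 9]),
  ([(1, 3), (1, 5), (1, 6), (1, 8), (1, 9), (3, 5), (6, 8), (9, 11), (9, 13), (9, 14), (11, 13)],
   [(1, 3), (1, 5), (1, 9), (3, 5), (5, 7), (5, 9), (7, 9), (9, 11), (9, 13), (9, 14), (11, 13)],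
   [1, 5, 6, 7, 8, 9]),
  ([(1, 3), (1, 8), (1, 12), (3, 8), (4, 6), (4, 8), (6, 8), (8, 10), (8, 12), (10, 12), (12, 14)],
   [(1, 3), (3, 8), (3, 10), (3, 14), (4, 6), (4, 8), (6, 8), (8, 10), (10, 12), (10, 14), (12, 14)],
   [1, 3, 8, 10, 12, 14]),
  ([(1, 12), (2, 7), (2, 12), (3, 5), (3, 7), (5, 7), (7, 12), (8, 10), (8, 12), (10, 12), (12, 14)],
   [(1, 3), (1, 8), (1, 12), (3, 5), (3, 7), (3, 8), (5, 7), (8, 10), (8, 12), (10, 12), (12, 14)],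
   [1, 2, 3, 7, 8, 12]),
  ([(1, 3), (1, 8), (1, 9), (1, 11), (1, 12), (3, 5), (3, 7), (3, 8), (5, 7), (9, 11), (12, 14)],
   [(1, 3), (1, 8), (1, 12), (3, 5), (3, 7), (3, 8), (5, 7), (8, 10), (8, 12), (10, 12), (12, 14)],
   [1, 8, 9, 10, 11, 12]),
  ([(1, 12), (2, 4), (2, 12), (4, 6), (4, 8), (4, 9), (4, 11), (4, 12), (6, 8), (9, 11), (12, 14)],
   [(1, 12), (2, 4), (2, 12), (4, 6), (4, 8), (4, 12), (6, 8), (8, 10), (8, 12), (10, 12), (12, 14)],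
   [4, 8, 9, 10, 11, 12]),
  ([(1, 12), (2, 4), (2, 6), (2, 10), (2, 12), (4, 6), (6, 8), (6, 10), (8, 10), (10, 12), (12, 14)],
   [(1, 12), (2, 4), (2, 12), (4, 6), (4, 8), (4, 12), (6, 8), (8, 10), (8, 12), (10, 12), (12, 14)],
   [2, 4, 6, 8, 10, 12]),
  ([(1, 6), (2, 4), (2, 6), (4, 6), (6, 8), (6, 10), (6, 14), (8, 10), (10, 12), (10, 14), (12, 14)],
   [(1, 6), (1, 8), (1, 12), (2, 4), (2, 6), (4, 6), (6, 8), (8, 10), (8, 12), (10, 12), (12, 14)],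
   [1, 6, 8, 10, 12, 14]),
  ([(1, 12), (2, 4), (2, 6), (2, 7), (2, 12), (4, 6), (7, 12), (8, 10), (8, 12), (10, 12), (12, 14)],
   [(1, 6), (1, 8), (1, 12), (2, 4), (2, 6), (4, 6), (6, 8), (8, 10), (8, 12), (10, 12), (12, 14)],
   [1, 2, 6, 7, 8, 12]),
  ([(1, 6), (1, 8), (1, 9), (1, 11), (1, 12), (2, 4), (2, 6), (4, 6), (6, 8), (9, 11), (12, 14)],
   [(1, 6), (1, 8), (1, 12), (2, 4), (2, 6), (4, 6), (6, 8), (8, 10), (8, 12), (10, 12), (12, 14)],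
   [1, 8, 9, 10, 11, 12]),
  ([(1, 3), (1, 5), (1, 6), (3, 5), (6, 14), (7, 9), (7, 14), (9, 14), (10, 12), (10, 14), (12, 14)],
   [(1, 3), (1, 5), (1, 6), (3, 5), (6, 8), (6, 10), (6, 14), (8, 10), (10, 12), (10, 14), (12, 14)],
   [6, 7, 8, 9, 10, 14]),
  ([(1, 3), (1, 5), (1, 6), (3, 5), (6, 8), (6, 10), (6, 11), (6, 13), (6, 14), (8, 10), (11, 13)],
   [(1, 3), (1, 5), (1, 6), (3, 5), (6, 8), (6, 10), (6, 14), (8, 10), (10, 12), (10, 14), (12, 14)],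
   [6, 10, 11, 12, 13, 14]),
  ([(1, 3), (1, 11), (1, 12), (3, 5), (3, 7), (3, 11), (5, 7), (7, 9), (7, 11), (9, 11), (12, 14)],
   [(1, 3), (1, 11), (1, 12), (3, 11), (4, 6), (4, 11), (6, 11), (7, 9), (7, 11), (9, 11), (12, 14)],
   [3, 4, 5, 6, 7, 11]),
  ([(1, 3), (1, 11), (1, 12), (3, 11), (4, 6), (4, 11), (6, 8), (6, 10), (6, 11), (8, 10), (12, 14)],
   [(1, 3), (1, 11), (1, 12), (3, 11), (4, 6), (4, 11), (6, 11), (7, 9), (7, 11), (9, 11), (12, 14)],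
   [6, 7, 8, 9, 10, 11]),
  ([(1, 12), (2, 7), (2, 12), (3, 5), (3, 7), (5, 7), (7, 9), (7, 11), (7, 12), (9, 11), (12, 14)],
   [(1, 12), (2, 4), (2, 6), (2, 7), (2, 12), (4, 6), (7, 9), (7, 11), (7, 12), (9, 11), (12, 14)],
   [2, 3, 4, 5, 6, 7]),
  ([(1, 9), (2, 4), (2, 9), (4, 6), (4, 8), (4, 9), (6, 8), (9, 14), (10, 12), (10, 14), (12, 14)],
   [(1, 9), (2, 4), (2, 9), (4, 9), (5, 7), (5, 9), (7, 9), (9, 14), (10, 12), (10, 14), (12, 14)],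
   [4, 5, 6, 7, 8, 9]),
  ([(1, 6), (1, 8), (1, 9), (2, 4), (2, 6), (4, 6), (6, 8), (9, 14), (10, 12), (10, 14), (12, 14)],
   [(1, 3), (1, 5), (1, 6), (1, 8), (1, 9), (3, 5), (6, 8), (9, 14), (10, 12), (10, 14), (12, 14)],
   [1, 2, 3, 4, 5, 6]),
  ([(1, 12), (2, 4), (2, 12), (4, 9), (4, 11), (4, 12), (5, 7), (5, 9), (7, 9), (9, 11), (12, 14)],
   [(1, 12), (2, 4), (2, 12), (4, 12), (5, 7), (5, 9), (5, 10), (5, 12), (7, 9), (10, 12), (12, 14)],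
   [4, 5, 9, 10, 11, 12]),
  ([(1, 9), (1, 11), (1, 12), (2, 4), (2, 9), (4, 9), (5, 7), (5, 9), (7, 9), (9, 11), (12, 14)],
   [(1, 3), (1, 5), (1, 9), (1, 11), (1, 12), (3, 5), (5, 7), (5, 9), (7, 9), (9, 11), (12, 14)],
   [1, 2, 3, 4, 5, 9]),
  ([(1, 9), (2, 4), (2, 9), (4, 6), (4, 8), (4, 9), (6, 8), (9, 11), (9, 13), (9, 14), (11, 13)],
   [(1, 9), (2, 4), (2, 9), (4, 9), (5, 7), (5, 9), (7, 9), (9, 11), (9, 13), (9, 14), (11, 13)],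
   [4, 5, 6, 7, 8, 9]),
  ([(1, 6), (1, 8), (1, 9), (2, 4), (2, 6), (4, 6), (6, 8), (9, 11), (9, 13), (9, 14), (11, 13)],
   [(1, 3), (1, 5), (1, 6), (1, 8), (1, 9), (3, 5), (6, 8), (9, 11), (9, 13), (9, 14), (11, 13)],
   [1, 2, 3, 4, 5, 6]),
  ([(1, 3), (1, 8), (1, 9), (1, 11), (1, 12), (3, 8), (4, 6), (4, 8), (6, 8), (9, 11), (12, 14)],
   [(1, 3), (1, 8), (1, 12), (3, 8), (4, 6), (4, 8), (6, 8), (8, 10), (8, 12), (10, 12), (12, 14)],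
   [1, 8, 9, 10, 11, 12]),
  ([(1, 9), (1, 11), (1, 12), (2, 7), (2, 9), (3, 5), (3, 7), (5, 7), (7, 9), (9, 11), (12, 14)],
   [(1, 3), (1, 8), (1, 9), (1, 11), (1, 12), (3, 5), (3, 7), (3, 8), (5, 7), (9, 11), (12, 14)],
   [1, 2, 3, 7, 8, 9]),
  ([(1, 3), (1, 11), (1, 12), (3, 11), (4, 6), (4, 8), (4, 9), (4, 11), (6, 8), (9, 11), (12, 14)],
   [(1, 12), (2, 4), (2, 12), (4, 6), (4, 8), (4, 9), (4, 11), (4, 12), (6, 8), (9, 11), (12, 14)],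
   [1, 2, 3, 4, 11, 12]),
  ([(1, 12), (2, 10), (2, 12), (3, 5), (3, 10), (5, 10), (6, 8), (6, 10), (8, 10), (10, 12), (12, 14)],
   [(1, 12), (2, 4), (2, 6), (2, 10), (2, 12), (4, 6), (6, 8), (6, 10), (8, 10), (10, 12), (12, 14)],
   [2, 3, 4, 5, 6, 10]),
  ([(1, 12), (2, 4), (2, 6), (2, 7), (2, 9), (2, 10), (2, 12), (4, 6), (7, 9), (10, 12), (12, 14)],
   [(1, 12), (2, 4), (2, 6), (2, 10), (2, 12), (4, 6), (6, 8), (6, 10), (8, 10), (10, 12), (12, 14)],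
   [2, 6, 7, 8, 9, 10]),
  ([(1, 6), (2, 4), (2, 6), (4, 6), (6, 14), (7, 9), (7, 14), (9, 14), (10, 12), (10, 14), (12, 14)],
   [(1, 6), (2, 4), (2, 6), (4, 6), (6, 8), (6, 10), (6, 14), (8, 10), (10, 12), (10, 14), (12, 14)],
   [6, 7, 8, 9, 10, 14]),
  ([(1, 6), (2, 4), (2, 6), (4, 6), (6, 8), (6, 10), (6, 11), (6, 13), (6, 14), (8, 10), (11, 13)],
   [(1, 6), (2, 4), (2, 6), (4, 6), (6, 8), (6, 10), (6, 14), (8, 10), (10, 12), (10, 14), (12, 14)],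
   [6, 10, 11, 12, 13, 14]),
  ([(1, 9), (1, 11), (1, 12), (2, 4), (2, 6), (2, 7), (2, 9), (4, 6), (7, 9), (9, 11), (12, 14)],
   [(1, 6), (1, 8), (1, 9), (1, 11), (1, 12), (2, 4), (2, 6), (4, 6), (6, 8), (9, 11), (12, 14)],
   [1, 2, 6, 7, 8, 9]),
  ([(1, 3), (1, 5), (1, 6), (3, 5), (6, 14), (7, 9), (7, 14), (9, 11), (9, 13), (9, 14), (11, 13)],
   [(1, 3), (1, 5), (1, 6), (3, 5), (6, 14), (7, 9), (7, 14), (9, 14), (10, 12), (10, 14), (12, 14)],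
   [9, 10, 11, 12, 13, 14]),
  ([(1, 3), (1, 5), (1, 6), (3, 5), (6, 11), (6, 13), (6, 14), (7, 9), (7, 11), (9, 11), (11, 13)],
   [(1, 3), (1, 5), (1, 6), (3, 5), (6, 8), (6, 10), (6, 11), (6, 13), (6, 14), (8, 10), (11, 13)],
   [6, 7, 8, 9, 10, 11]),
  ([(1, 3), (1, 11), (1, 12), (3, 5), (3, 7), (3, 8), (3, 10), (3, 11), (5, 7), (8, 10), (12, 14)],
   [(1, 3), (1, 11), (1, 12), (3, 5), (3, 7), (3, 11), (5, 7), (7, 9), (7, 11), (9, 11), (12, 14)],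
   [3, 7, 8, 9, 10, 11]),
  ([(1, 3), (1, 11), (1, 12), (3, 5), (3, 10), (3, 11), (5, 10), (6, 8), (6, 10), (8, 10), (12, 14)],
   [(1, 3), (1, 11), (1, 12), (3, 11), (4, 6), (4, 11), (6, 8), (6, 10), (6, 11), (8, 10), (12, 14)],
   [3, 4, 5, 6, 10, 11]),
  ([(1, 3), (1, 8), (1, 9), (3, 8), (4, 6), (4, 8), (6, 8), (9, 14), (10, 12), (10, 14), (12, 14)],
   [(1, 9), (2, 4), (2, 9), (4, 6), (4, 8), (4, 9), (6, 8), (9, 14), (10, 12), (10, 14), (12, 14)],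
   [1, 2, 3, 4, 8, 9]),
  ([(1, 9), (2, 4), (2, 6), (2, 7), (2, 9), (4, 6), (7, 9), (9, 14), (10, 12), (10, 14), (12, 14)],
   [(1, 6), (1, 8), (1, 9), (2, 4), (2, 6), (4, 6), (6, 8), (9, 14), (10, 12), (10, 14), (12, 14)],
   [1, 2, 6, 7, 8, 9]),
  ([(1, 3), (1, 11), (1, 12), (3, 11), (4, 9), (4, 11), (5, 7), (5, 9), (7, 9), (9, 11), (12, 14)],
   [(1, 12), (2, 4), (2, 12), (4, 9), (4, 11), (4, 12), (5, 7), (5, 9), (7, 9), (9, 11), (12, 14)],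
   [1, 2, 3, 4, 11, 12]),
  ([(1, 12), (2, 4), (2, 9), (2, 10), (2, 12), (4, 9), (5, 7), (5, 9), (7, 9), (10, 12), (12, 14)],
   [(1, 9), (1, 11), (1, 12), (2, 4), (2, 9), (4, 9), (5, 7), (5, 9), (7, 9), (9, 11), (12, 14)],
   [1, 2, 9, 10, 11, 12]),
  ([(1, 9), (1, 11), (1, 12), (2, 4), (2, 9), (4, 6), (4, 8), (4, 9), (6, 8), (9, 11), (12, 14)],
   [(1, 9), (1, 11), (1, 12), (2, 4), (2, 9), (4, 9), (5, 7), (5, 9), (7, 9), (9, 11), (12, 14)],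
   [4, 5, 6, 7, 8, 9]),
  ([(1, 3), (1, 8), (1, 9), (3, 8), (4, 6), (4, 8), (6, 8), (9, 11), (9, 13), (9, 14), (11, 13)],
   [(1, 9), (2, 4), (2, 9), (4, 6), (4, 8), (4, 9), (6, 8), (9, 11), (9, 13), (9, 14), (11, 13)],
   [1, 2, 3, 4, 8, 9]),
  ([(1, 9), (2, 4), (2, 6), (2, 7), (2, 9), (4, 6), (7, 9), (9, 11), (9, 13), (9, 14), (11, 13)],
   [(1, 6), (1, 8), (1, 9), (2, 4), (2, 6), (4, 6), (6, 8), (9, 11), (9, 13), (9, 14), (11, 13)],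
   [1, 2, 6, 7, 8, 9]),
  ([(1, 12), (2, 7), (2, 9), (2, 10), (2, 12), (3, 5), (3, 7), (5, 7), (7, 9), (10, 12), (12, 14)],
   [(1, 9), (1, 11), (1, 12), (2, 7), (2, 9), (3, 5), (3, 7), (5, 7), (7, 9), (9, 11), (12, 14)],
   [1, 2, 9, 10, 11, 12]),
  ([(1, 3), (1, 11), (1, 12), (3, 8), (3, 10), (3, 11), (4, 6), (4, 8), (6, 8), (8, 10), (12, 14)],
   [(1, 3), (1, 11), (1, 12), (3, 11), (4, 6), (4, 8), (4, 9), (4, 11), (6, 8), (9, 11), (12, 14)],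
   [3, 4, 8, 9, 10, 11]),
  ([(1, 12), (2, 10), (2, 12), (3, 5), (3, 10), (5, 7), (5, 9), (5, 10), (7, 9), (10, 12), (12, 14)],
   [(1, 12), (2, 10), (2, 12), (3, 5), (3, 10), (5, 10), (6, 8), (6, 10), (8, 10), (10, 12), (12, 14)],
   [5, 6, 7, 8, 9, 10]),
  ([(1, 6), (2, 4), (2, 6), (4, 6), (6, 14), (7, 9), (7, 14), (9, 11), (9, 13), (9, 14), (11, 13)],
   [(1, 6), (2, 4), (2, 6), (4, 6), (6, 14), (7, 9), (7, 14), (9, 14), (10, 12), (10, 14), (12, 14)],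
   [9, 10, 11, 12, 13, 14]),
  ([(1, 6), (2, 4), (2, 6), (4, 6), (6, 11), (6, 13), (6, 14), (7, 9), (7, 11), (9, 11), (11, 13)],
   [(1, 6), (2, 4), (2, 6), (4, 6), (6, 8), (6, 10), (6, 11), (6, 13), (6, 14), (8, 10), (11, 13)],
   [6, 7, 8, 9, 10, 11]),
  ([(1, 3), (1, 5), (1, 6), (3, 5), (6, 8), (6, 13), (6, 14), (8, 13), (9, 11), (9, 13), (11, 13)],
   [(1, 3), (1, 5), (1, 6), (3, 5), (6, 14), (7, 9), (7, 14), (9, 11), (9, 13), (9, 14), (11, 13)],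
   [6, 7, 8, 9, 13, 14]),
  ([(1, 3), (1, 5), (1, 6), (3, 5), (6, 14), (7, 9), (7, 11), (7, 12), (7, 14), (9, 11), (12, 14)],
   [(1, 3), (1, 5), (1, 6), (3, 5), (6, 11), (6, 13), (6, 14), (7, 9), (7, 11), (9, 11), (11, 13)],
   [6, 7, 11, 12, 13, 14]),
  ([(1, 12), (2, 10), (2, 12), (3, 5), (3, 7), (3, 8), (3, 10), (5, 7), (8, 10), (10, 12), (12, 14)],
   [(1, 3), (1, 11), (1, 12), (3, 5), (3, 7), (3, 8), (3, 10), (3, 11), (5, 7), (8, 10), (12, 14)],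
   [1, 2, 3, 10, 11, 12]),
  ([(1, 3), (1, 11), (1, 12), (3, 5), (3, 10), (3, 11), (5, 7), (5, 9), (5, 10), (7, 9), (12, 14)],
   [(1, 3), (1, 11), (1, 12), (3, 5), (3, 10), (3, 11), (5, 10), (6, 8), (6, 10), (8, 10), (12, 14)],
   [5, 6, 7, 8, 9, 10]),
  ([(1, 3), (1, 8), (1, 9), (3, 5), (3, 7), (3, 8), (5, 7), (9, 14), (10, 12), (10, 14), (12, 14)],
   [(1, 3), (1, 8), (1, 9), (3, 8), (4, 6), (4, 8), (6, 8), (9, 14), (10, 12), (10, 14), (12, 14)],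
   [3, 4, 5, 6, 7, 8]),
  ([(1, 9), (2, 7), (2, 9), (3, 5), (3, 7), (5, 7), (7, 9), (9, 14), (10, 12), (10, 14), (12, 14)],
   [(1, 9), (2, 4), (2, 6), (2, 7), (2, 9), (4, 6), (7, 9), (9, 14), (10, 12), (10, 14), (12, 14)],
   [2, 3, 4, 5, 6, 7]),
  ([(1, 12), (2, 4), (2, 9), (2, 10), (2, 12), (4, 6), (4, 8), (4, 9), (6, 8), (10, 12), (12, 14)],
   [(1, 12), (2, 4), (2, 9), (2, 10), (2, 12), (4, 9), (5, 7), (5, 9), (7, 9), (10, 12), (12, 14)],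
   [4, 5, 6, 7, 8, 9]),
  ([(1, 3), (1, 8), (1, 9), (3, 5), (3, 7), (3, 8), (5, 7), (9, 11), (9, 13), (9, 14), (11, 13)],
   [(1, 3), (1, 8), (1, 9), (3, 8), (4, 6), (4, 8), (6, 8), (9, 11), (9, 13), (9, 14), (11, 13)],
   [3, 4, 5, 6, 7, 8]),
  ([(1, 9), (2, 7), (2, 9), (3, 5), (3, 7), (5, 7), (7, 9), (9, 11), (9, 13), (9, 14), (11, 13)],
   [(1, 9), (2, 4), (2, 6), (2, 7), (2, 9), (4, 6), (7, 9), (9, 11), (9, 13), (9, 14), (11, 13)],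
   [2, 3, 4, 5, 6, 7]),
  ([(1, 12), (2, 10), (2, 12), (3, 8), (3, 10), (4, 6), (4, 8), (6, 8), (8, 10), (10, 12), (12, 14)],
   [(1, 3), (1, 11), (1, 12), (3, 8), (3, 10), (3, 11), (4, 6), (4, 8), (6, 8), (8, 10), (12, 14)],
   [1, 2, 3, 10, 11, 12]),
  ([(1, 6), (2, 4), (2, 6), (4, 6), (6, 8), (6, 13), (6, 14), (8, 13), (9, 11), (9, 13), (11, 13)],
   [(1, 6), (2, 4), (2, 6), (4, 6), (6, 14), (7, 9), (7, 14), (9, 11), (9, 13), (9, 14), (11, 13)],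
   [6, 7, 8, 9, 13, 14]),
  ([(1, 6), (2, 4), (2, 6), (4, 6), (6, 14), (7, 9), (7, 11), (7, 12), (7, 14), (9, 11), (12, 14)],
   [(1, 6), (2, 4), (2, 6), (4, 6), (6, 11), (6, 13), (6, 14), (7, 9), (7, 11), (9, 11), (11, 13)],
   [6, 7, 11, 12, 13, 14]),
  ([(1, 3), (1, 5), (1, 6), (3, 5), (6, 8), (6, 13), (6, 14), (8, 10), (8, 12), (8, 13), (10, 12)],
   [(1, 3), (1, 5), (1, 6), (3, 5), (6, 8), (6, 13), (6, 14), (8, 13), (9, 11), (9, 13), (11, 13)],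
   [8, 9, 10, 11, 12, 13]),
  ([(1, 3), (1, 5), (1, 6), (3, 5), (6, 14), (7, 12), (7, 14), (8, 10), (8, 12), (10, 12), (12, 14)],
   [(1, 3), (1, 5), (1, 6), (3, 5), (6, 14), (7, 9), (7, 11), (7, 12), (7, 14), (9, 11), (12, 14)],
   [7, 8, 9, 10, 11, 12]),
  ([(1, 6), (2, 4), (2, 6), (4, 6), (6, 8), (6, 13), (6, 14), (8, 10), (8, 12), (8, 13), (10, 12)],
   [(1, 6), (2, 4), (2, 6), (4, 6), (6, 8), (6, 13), (6, 14), (8, 13), (9, 11), (9, 13), (11, 13)],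
   [8, 9, 10, 11, 12, 13]),
  ([(1, 6), (2, 4), (2, 6), (4, 6), (6, 14), (7, 12), (7, 14), (8, 10), (8, 12), (10, 12), (12, 14)],
   [(1, 6), (2, 4), (2, 6), (4, 6), (6, 14), (7, 9), (7, 11), (7, 12), (7, 14), (9, 11), (12, 14)],
   [7, 8, 9, 10, 11, 12])]

theorem good_base : good baseTri = true := by decide +kernel

theorem table_ok : check [encode baseTri] table = true := by decide +kernel

theorem table_cover : ((enum 14 1 14).all fun m =>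
    (final [encode baseTri] table).any fun m' => Nat.beq m m') = true := by decide +kernel

/-- The graph `𝓗_14` is connected. -/
theorem connected14 : (H 14).Connected :=
  connected_of_check baseTri good_base table table_ok table_cover

end Pool.Agent.Z45.TwistGraph
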