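import Mathlib
import Pool.Agent.Helper337.PolygonProofC

set_option autoImplicit false

namespace Pool.Agent.Z45.Poly

open Set Pool.Agent.Helper337.PolygonPattern

/-! ### radial homeomorphisms supported in a ball -/

/-- the scaling factor of the radial homeomorphism -/
noncomputable def sc (R l r : ℝ) : ℝ := l * R / (R + (l - 1) * min r R)

theorem sc_den {R l r : ℝ} (hR : 0 < R) (hl : 0 < l) (hr : 0 ≤ r) :
    0 < R + (l - 1) * min r R := by
  have h1 : 0 ≤ min r R := le_min hr hR.le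
  have h2 : min r R ≤ R := min_le_right _ _
  rcases le_or_gt 1 l with h | h
  · have := mul_nonneg (sub_nonneg.mpr h) h1
    linarith
  · have : (1 - l) * min r R ≤ (1 - l) * R := mul_le_mul_of_nonneg_left h2 (by linarith)
    have : 0 < l * R := mul_pos hl hR
    nlinarith

theorem sc_pos {R l r : ℝ} (hR : 0 < R) (hl : 0 < l) (hr : 0 ≤ r) : 0 < sc R l r :=
  div_pos (mul_pos hl hR) (sc_den hR hl hr)

theorem sc_far {R l r : ℝ} (hR : 0 < R) (hl : 0 < l) (hr : R ≤ r) : sc R l r = 1 := by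
  unfold sc
  rw [min_eq_right hr]
  have : R + (l - 1) * R = l * R := by ring
  rw [this, div_self (mul_pos hl hR).ne']

/-- the new radius stays in the ball -/
theorem sc_mul_le {R l r : ℝ} (hR : 0 < R) (hl : 0 < l) (hr : 0 ≤ r) (hrR : r ≤ R) :
    sc R l r * r ≤ R := by
  have hd := sc_den hR hl hr
  unfold sc
  rw [min_eq_left hrR] at hd ⊢
  rw [div_mul_eq_mul_div, div_le_iff₀ hd]
  nlinarith [mul_pos hl hR]

theorem sc_inv {R l r : ℝ} (hR : 0 < R) (hl : 0 < l) (hr : 0 ≤ r) :
    sc R l⁻¹ (sc R l r * r) * sc R l r = 1 := by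
  rcases le_or_gt R r with h | h
  · rw [sc_far hR hl h, one_mul, mul_one]
    exact sc_far hR (inv_pos.mpr hl) h
  · have h1 := sc_mul_le hR hl hr h.le
    have hd := sc_den hR hl hr
    have h0 : 0 ≤ sc R l r * r := mul_nonneg (sc_pos hR hl hr).le hr
    have hd2 := sc_den hR (inv_pos.mpr hl) h0
    have e : sc R l r = l * R / (R + (l - 1) * r) := by
      unfold sc; rw [min_eq_left h.le]
    rw [min_eq_left h.le] at hd
    rw [min_eq_left h1] at hd2
    have e2 : sc R l⁻¹ (sc R l r * r) = l⁻¹ * R / (R + (l⁻¹ - 1) * (sc R l r * r)) := by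
      unfold sc
      unfold sc at h1
      rw [min_eq_left h1]
    rw [e2]
    have e3 : R + (l⁻¹ - 1) * (sc R l r * r) = R * R / (R + (l - 1) * r) := by
      rw [e]; field_simp; ring
    rw [e3, e]
    field_simp

theorem sc_continuous {R l : ℝ} (hR : 0 < R) (hl : 0 < l) :
    Continuous fun p : Plane => sc R l ‖p‖ := by
  unfold sc
  refine Continuous.div continuous_const (by fun_prop) ?_
  intro p
  exact (sc_den hR hl (norm_nonneg p)).ne'

/-- the radial map -/
noncomputable def radF (c : Plane) (R l : ℝ) (p : Plane) : Plane := c + sc R l ‖p - c‖ • (p - c)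

theorem radF_continuous (c : Plane) {R l : ℝ} (hR : 0 < R) (hl : 0 < l) :
    Continuous (radF c R l) := by
  unfold radF
  have h := (sc_continuous hR hl).comp (f := fun p : Plane => p - c) (by fun_prop)
  exact continuous_const.add (h.smul (by fun_prop))

theorem radF_inv (c : Plane) {R l : ℝ} (hR : 0 < R) (hl : 0 < l) (p : Plane) :
    radF c R l⁻¹ (radF c R l p) = p := by
  unfold radF
  rw [add_sub_cancel_left, norm_smul, Real.norm_of_nonneg (sc_pos hR hl (norm_nonneg _)).le,
    smul_smul, sc_inv hR hl (norm_nonneg _), one_smul, add_sub_cancel]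

/-- the radial homeomorphism -/
noncomputable def rad (c : Plane) (R l : ℝ) (hR : 0 < R) (hl : 0 < l) : Plane ≃ₜ Plane where
  toFun := radF c R l
  invFun := radF c R l⁻¹
  left_inv := radF_inv c hR hl
  right_inv := by
    have := radF_inv c hR (inv_pos.mpr hl)
    rw [inv_inv] at this
    exact this
  continuous_toFun := radF_continuous c hR hl
  continuous_invFun := radF_continuous c hR (inv_pos.mpr hl)

theorem radF_far (c : Plane) {R l : ℝ} (hR : 0 < R) (hl : 0 < l) {p : Plane} (h : R ≤ ‖p - c‖) :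
    radF c R l p = p := by
  unfold radF
  rw [sc_far hR hl h, one_smul, add_sub_cancel]

theorem radF_centre (c : Plane) {R l : ℝ} : radF c R l c = c := by
  unfold radF; simp

theorem segment_mem {a v p : Plane} :
    p ∈ segment ℝ a (a + v) ↔ ∃ t : ℝ, 0 ≤ t ∧ t ≤ 1 ∧ p = a + t • v := by
  rw [segment_eq_image']
  constructor
  · rintro ⟨t, ht, rfl⟩
    exact ⟨t, ht.1, ht.2, by simp⟩
  · rintro ⟨t, h0, h1, rfl⟩
    exact ⟨t, ⟨h0, h1⟩, by simp⟩

/-- long segments from the centre are mapped into themselves -/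
theorem radF_long (c v : Plane) {R l : ℝ} (hR : 0 < R) (hl : 0 < l) (hv : R ≤ ‖v‖) {p : Plane}
    (hp : p ∈ segment ℝ c (c + v)) : radF c R l p ∈ segment ℝ c (c + v) := by
  obtain ⟨t, h0, h1, rfl⟩ := segment_mem.mp hp
  rw [segment_mem]
  have hvpos : 0 < ‖v‖ := lt_of_lt_of_le hR hv
  have hn : ‖c + t • v - c‖ = t * ‖v‖ := by
    rw [add_sub_cancel_left, norm_smul, Real.norm_of_nonneg h0]
  unfold radF
  rw [hn]
  have hr : 0 ≤ t * ‖v‖ := mul_nonneg h0 hvpos.le
  refine ⟨sc R l (t * ‖v‖) * t, mul_nonneg (sc_pos hR hl hr).le h0, ?_, ?_⟩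
  · rcases le_or_gt R (t * ‖v‖) with h | h
    · rw [sc_far hR hl h, one_mul]; exact h1
    · have := sc_mul_le hR hl hr h.le
      have h2 : sc R l (t * ‖v‖) * t * ‖v‖ ≤ 1 * ‖v‖ := by nlinarith
      exact le_of_mul_le_mul_right h2 hvpos
  · rw [add_sub_cancel_left, smul_smul]

/-- the factor that carries the radius `r` to the radius `s` -/
noncomputable def lam (R r s : ℝ) : ℝ := s * (R - r) / (r * (R - s))

theorem lam_pos {R r s : ℝ} (hr : 0 < r) (hrR : r < R) (hs : 0 < s) (hsR : s < R) :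
    0 < lam R r s := by
  unfold lam
  have := sub_pos.mpr hrR
  have := sub_pos.mpr hsR
  positivity

theorem lam_inv {R r s : ℝ} : (lam R r s)⁻¹ = lam R s r := by
  unfold lam
  rw [inv_div]

/-- short segments from the centre -/
theorem radF_short (c v : Plane) {R r s : ℝ} (hr : 0 < r) (hrR : r * ‖v‖ < R)
    (hs : 0 < s) (hsR : s * ‖v‖ < R) (hv : 0 < ‖v‖) {p : Plane}
    (hp : p ∈ segment ℝ c (c + r • v)) :
    radF c R (lam R (r * ‖v‖) (s * ‖v‖)) p ∈ segment ℝ c (c + s • v) ∧
      radF c R (lam R (r * ‖v‖) (s * ‖v‖)) (c + r • v) = c + s • v := by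
  have hR : 0 < R := lt_trans (mul_pos hr hv) hrR
  set l := lam R (r * ‖v‖) (s * ‖v‖) with hl
  have hlp : 0 < l := lam_pos (mul_pos hr hv) hrR (mul_pos hs hv) hsR
  have hA := sub_pos.mpr hrR
  have hB := sub_pos.mpr hsR
  have key : ∀ t : ℝ, 0 ≤ t → t ≤ 1 → radF c R l (c + t • r • v) =
      c + (l * R * t * r / (R + (l - 1) * (t * (r * ‖v‖)))) • v := by
    intro t h0 h1
    unfold radF
    rw [add_sub_cancel_left, norm_smul, norm_smul, Real.norm_of_nonneg h0,
      Real.norm_of_nonneg hr.le]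
    have : t * (r * ‖v‖) ≤ R := by nlinarith [mul_pos hr hv]
    unfold sc
    rw [min_eq_left this, smul_smul, smul_smul]
    congr 2
    ring
  have hden : ∀ t : ℝ, 0 ≤ t → t ≤ 1 → 0 < R + (l - 1) * (t * (r * ‖v‖)) := by
    intro t h0 h1
    have h2 : t * (r * ‖v‖) ≤ R := by nlinarith [mul_pos hr hv]
    have := sc_den hR hlp (mul_nonneg h0 (mul_pos hr hv).le)
    rwa [min_eq_left h2] at this
  have hend : l * R * 1 * r / (R + (l - 1) * (1 * (r * ‖v‖))) = s := by
    have h1 := hden 1 zero_le_one le_rfl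
    rw [div_eq_iff h1.ne']
    have e : l * (r * ‖v‖ * (R - s * ‖v‖)) = s * ‖v‖ * (R - r * ‖v‖) := by
      rw [hl]; unfold lam
      rw [div_mul_cancel₀]
      exact (mul_pos (mul_pos hr hv) hB).ne'
    have e' : l * (r * (R - s * ‖v‖)) = s * (R - r * ‖v‖) := by
      have : (l * (r * (R - s * ‖v‖))) * ‖v‖ = (s * (R - r * ‖v‖)) * ‖v‖ := by linarith
      exact mul_right_cancel₀ hv.ne' this
    linarith
  have hfin : radF c R l (c + r • v) = c + s • v := by
    have := key 1 zero_le_one le_rfl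
    rw [one_smul, hend] at this
    exact this
  refine ⟨?_, hfin⟩
  obtain ⟨t, h0, h1, rfl⟩ := segment_mem.mp hp
  rw [key t h0 h1, segment_mem]
  have hd := hden t h0 h1
  have hd1 := hden 1 zero_le_one le_rfl
  set g := l * R * t * r / (R + (l - 1) * (t * (r * ‖v‖))) with hg
  have hg0 : 0 ≤ g := by
    rw [hg]; positivity
  have hgs : g ≤ s := by
    rw [← hend, hg, div_le_div_iff₀ hd hd1]
    have hlr : 0 < l * R * r := by positivity
    have : t * (R + (l - 1) * (1 * (r * ‖v‖))) ≤ 1 * (R + (l - 1) * (t * (r * ‖v‖))) := by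
      nlinarith
    calc l * R * t * r * (R + (l - 1) * (1 * (r * ‖v‖)))
        = (l * R * r) * (t * (R + (l - 1) * (1 * (r * ‖v‖)))) := by ring
      _ ≤ (l * R * r) * (1 * (R + (l - 1) * (t * (r * ‖v‖)))) :=
        mul_le_mul_of_nonneg_left this hlr.le
      _ = _ := by ring
  refine ⟨g / s, div_nonneg hg0 hs.le, (div_le_one hs).mpr hgs, ?_⟩
  rw [smul_smul, div_mul_cancel₀ _ hs.ne']

theorem rad_image_fix (c : Plane) {R l : ℝ} (hR : 0 < R) (hl : 0 < l) {S : Set Plane}
    (h : ∀ p ∈ S, R ≤ ‖p - c‖) : rad c R l hR hl '' S = S := by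
  have : ∀ p ∈ S, rad c R l hR hl p = id p := fun p hp => radF_far c hR hl (h p hp)
  rw [image_congr this, image_id]

theorem rad_image_long (c v : Plane) {R l : ℝ} (hR : 0 < R) (hl : 0 < l) (hv : R ≤ ‖v‖) :
    rad c R l hR hl '' segment ℝ c (c + v) = segment ℝ c (c + v) := by
  apply Subset.antisymm
  · rintro _ ⟨p, hp, rfl⟩
    exact radF_long c v hR hl hv hp
  · intro p hp
    exact ⟨(rad c R l hR hl).symm p, radF_long c v hR (inv_pos.mpr hl) hv hp,
      (rad c R l hR hl).apply_symm_apply p⟩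

theorem rad_image_short (c v : Plane) {R r s : ℝ} (hR : 0 < R) (hr : 0 < r) (hrR : r * ‖v‖ < R)
    (hs : 0 < s) (hsR : s * ‖v‖ < R) (hv : 0 < ‖v‖)
    (hl : 0 < lam R (r * ‖v‖) (s * ‖v‖)) :
    rad c R (lam R (r * ‖v‖) (s * ‖v‖)) hR hl '' segment ℝ c (c + r • v) =
      segment ℝ c (c + s • v) := by
  apply Subset.antisymm
  · rintro _ ⟨p, hp, rfl⟩
    exact (radF_short c v hr hrR hs hsR hv hp).1
  · intro p hp
    refine ⟨(rad c R _ hR hl).symm p, ?_, (rad c R _ hR hl).apply_symm_apply p⟩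
    have := (radF_short c v hs hsR hr hrR hv hp).1
    rw [← lam_inv] at this
    exact this

end Pool.Agent.Z45.Poly
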