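import Mathlib
import Pool.Agent.Z45.PolyRad

set_option autoImplicit false

namespace Pool.Agent.Z45.Poly

open Set Pool.Agent.Helper337.PolygonPattern

/-! ### the first polygon: distances from its vertices -/

/-- linear functionals with coefficients in `{-1, 0, 1}` used as separation tests -/
def sepTest (a c d : ℤ × ℤ) : Bool :=
  decide (a.1 + 1 ≤ c.1 ∧ a.1 + 1 ≤ d.1) || decide (c.1 + 1 ≤ a.1 ∧ d.1 + 1 ≤ a.1) ||
  decide (a.2 + 1 ≤ c.2 ∧ a.2 + 1 ≤ d.2) || decide (c.2 + 1 ≤ a.2 ∧ d.2 + 1 ≤ a.2) ||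
  decide (a.1 + a.2 + 1 ≤ c.1 + c.2 ∧ a.1 + a.2 + 1 ≤ d.1 + d.2) ||
  decide (c.1 + c.2 + 1 ≤ a.1 + a.2 ∧ d.1 + d.2 + 1 ≤ a.1 + a.2) ||
  decide (a.1 - a.2 + 1 ≤ c.1 - c.2 ∧ a.1 - a.2 + 1 ≤ d.1 - d.2) ||
  decide (c.1 - c.2 + 1 ≤ a.1 - a.2 ∧ d.1 - d.2 + 1 ≤ a.1 - a.2)

theorem comb_ge {t u v w : ℝ} (h0 : 0 ≤ t) (h1 : t ≤ 1) (hu : w ≤ u) (hv : w ≤ v) :
    w ≤ u + t * (v - u) := by
  have e : u + t * (v - u) - w = (1 - t) * (u - w) + t * (v - w) := by ring
  have := mul_nonneg (sub_nonneg.mpr h1) (sub_nonneg.mpr hu)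
  have := mul_nonneg h0 (sub_nonneg.mpr hv)
  linarith

theorem sepTest_far {a c d : ℤ × ℤ} (h : sepTest a c d = true) {p : Plane}
    (hp : p ∈ segment ℝ (toR c) (toR d)) : 1 / 2 ≤ ‖p - toR a‖ := by
  obtain ⟨t, h0, h1, hx, hy⟩ := mem_segment_coords hp
  by_contra hcon
  push Not at hcon
  rw [Prod.norm_def, max_lt_iff, Real.norm_eq_abs, Real.norm_eq_abs, abs_lt, abs_lt] at hcon
  obtain ⟨⟨q1, q2⟩, ⟨q3, q4⟩⟩ := hcon
  simp only [Prod.fst_sub, Prod.snd_sub, toR] at q1 q2 q3 q4 hx hy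
  simp only [sepTest, Bool.or_eq_true, decide_eq_true_eq] at h
  rcases h with ((((((h | h) | h) | h) | h) | h) | h) | h
  · have e1 : ((a.1 : ℝ) + 1 ≤ c.1) := by exact_mod_cast h.1
    have e2 : ((a.1 : ℝ) + 1 ≤ d.1) := by exact_mod_cast h.2
    have := comb_ge h0 h1 e1 e2
    linarith
  · have e1 : ((c.1 : ℝ) + 1 ≤ a.1) := by exact_mod_cast h.1
    have e2 : ((d.1 : ℝ) + 1 ≤ a.1) := by exact_mod_cast h.2
    have := comb_ge h0 h1 (by linarith : -(a.1 : ℝ) + 1 ≤ -c.1) (by linarith : -(a.1 : ℝ) + 1 ≤ -d.1)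
    linarith
  · have e1 : ((a.2 : ℝ) + 1 ≤ c.2) := by exact_mod_cast h.1
    have e2 : ((a.2 : ℝ) + 1 ≤ d.2) := by exact_mod_cast h.2
    have := comb_ge h0 h1 e1 e2
    linarith
  · have e1 : ((c.2 : ℝ) + 1 ≤ a.2) := by exact_mod_cast h.1
    have e2 : ((d.2 : ℝ) + 1 ≤ a.2) := by exact_mod_cast h.2
    have := comb_ge h0 h1 (by linarith : -(a.2 : ℝ) + 1 ≤ -c.2) (by linarith : -(a.2 : ℝ) + 1 ≤ -d.2)
    linarith
  · have e1 : ((a.1 : ℝ) + a.2 + 1 ≤ c.1 + c.2) := by exact_mod_cast h.1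
    have e2 : ((a.1 : ℝ) + a.2 + 1 ≤ d.1 + d.2) := by exact_mod_cast h.2
    have := comb_ge h0 h1 e1 e2
    linarith
  · have e1 : ((c.1 : ℝ) + c.2 + 1 ≤ a.1 + a.2) := by exact_mod_cast h.1
    have e2 : ((d.1 : ℝ) + d.2 + 1 ≤ a.1 + a.2) := by exact_mod_cast h.2
    have := comb_ge h0 h1 (by linarith : -((a.1 : ℝ) + a.2) + 1 ≤ -(c.1 + c.2))
      (by linarith : -((a.1 : ℝ) + a.2) + 1 ≤ -(d.1 + d.2))
    linarith
  · have e1 : ((a.1 : ℝ) - a.2 + 1 ≤ c.1 - c.2) := by exact_mod_cast h.1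
    have e2 : ((a.1 : ℝ) - a.2 + 1 ≤ d.1 - d.2) := by exact_mod_cast h.2
    have := comb_ge h0 h1 e1 e2
    linarith
  · have e1 : ((c.1 : ℝ) - c.2 + 1 ≤ a.1 - a.2) := by exact_mod_cast h.1
    have e2 : ((d.1 : ℝ) - d.2 + 1 ≤ a.1 - a.2) := by exact_mod_cast h.2
    have := comb_ge h0 h1 (by linarith : -((a.1 : ℝ) - a.2) + 1 ≤ -(c.1 - c.2))
      (by linarith : -((a.1 : ℝ) - a.2) + 1 ≤ -(d.1 - d.2))
    linarith

theorem edge_sep : ∀ k i : ZMod 14, i ≠ k → i + 1 ≠ k →
    sepTest (XZ k) (XZ i) (XZ (i + 1)) = true := by decide +kernel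

/-- an edge not incident with the vertex `k` stays away from it -/
theorem edge_far {k i : ZMod 14} (h1 : i ≠ k) (h2 : i + 1 ≠ k) {p : Plane} (hp : p ∈ edge xx i) :
    1 / 2 ≤ ‖p - xx k‖ :=
  sepTest_far (edge_sep k i h1 h2) hp

theorem vert_dist : ∀ k i : ZMod 14, i ≠ k →
    ((XZ i).1 + 1 ≤ (XZ k).1 ∨ (XZ k).1 + 1 ≤ (XZ i).1) ∨
    ((XZ i).2 + 1 ≤ (XZ k).2 ∨ (XZ k).2 + 1 ≤ (XZ i).2) := by decide +kernel

theorem vert_far {k i : ZMod 14} (h : i ≠ k) : 1 ≤ ‖xx i - xx k‖ := by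
  rw [Prod.norm_def, le_max_iff, Real.norm_eq_abs, Real.norm_eq_abs, le_abs, le_abs]
  simp only [Prod.fst_sub, Prod.snd_sub, xx, toR]
  rcases vert_dist k i h with (h | h) | (h | h)
  · have : ((XZ i).1 : ℝ) + 1 ≤ (XZ k).1 := by exact_mod_cast h
    left; right; linarith
  · have : ((XZ k).1 : ℝ) + 1 ≤ (XZ i).1 := by exact_mod_cast h
    left; left; linarith
  · have : ((XZ i).2 : ℝ) + 1 ≤ (XZ k).2 := by exact_mod_cast h
    right; right; linarith
  · have : ((XZ k).2 : ℝ) + 1 ≤ (XZ i).2 := by exact_mod_cast h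
    right; left; linarith

/-- the direction of the extra short edge at the vertex `i` -/
noncomputable def vv (x : ZMod 14 → Plane) (i : ZMod 14) : Plane :=
  (2 : ℝ) • x i - x (i - 1) - x (i + 1)

theorem vv_bound : ∀ i : ZMod 14,
    (|2 * (XZ i).1 - (XZ (i - 1)).1 - (XZ (i + 1)).1| ≤ 999 ∧
    |2 * (XZ i).2 - (XZ (i - 1)).2 - (XZ (i + 1)).2| ≤ 999) ∧
    (2 * (XZ i).1 - (XZ (i - 1)).1 - (XZ (i + 1)).1 ≠ 0 ∨
    2 * (XZ i).2 - (XZ (i - 1)).2 - (XZ (i + 1)).2 ≠ 0) := by decide +kernel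

theorem vv_norm_le (i : ZMod 14) : ‖vv xx i‖ ≤ 999 := by
  obtain ⟨⟨h1, h2⟩, -⟩ := vv_bound i
  rw [Prod.norm_def, max_le_iff, Real.norm_eq_abs, Real.norm_eq_abs]
  simp only [vv, xx, toR, Prod.fst_sub, Prod.snd_sub, Prod.smul_fst, Prod.smul_snd, smul_eq_mul]
  exact ⟨by exact_mod_cast h1, by exact_mod_cast h2⟩

theorem vv_norm_pos (i : ZMod 14) : 0 < ‖vv xx i‖ := by
  obtain ⟨-, h⟩ := vv_bound i
  rw [norm_pos_iff]
  intro h0
  have e1 := congrArg Prod.fst h0
  have e2 := congrArg Prod.snd h0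
  simp only [vv, xx, toR, Prod.fst_sub, Prod.snd_sub, Prod.smul_fst, Prod.smul_snd, smul_eq_mul,
    Prod.fst_zero, Prod.snd_zero] at e1 e2
  rcases h with h | h
  · exact h (by exact_mod_cast e1)
  · exact h (by exact_mod_cast e2)

/-- the homeomorphism `h` carries the first polygon with extra short edges of sizes `e` to the one
with extra short edges of sizes `e'`, piece by piece. -/
structure Carries (e e' : ZMod 14 → ℝ) (h : Plane ≃ₜ Plane) : Prop where
  edge : ∀ i, h '' edge xx i = edge xx i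
  vert : ∀ i, h (xx i) = xx i
  short : ∀ i, h '' segment ℝ (xx i) (xx i + e i • vv xx i) =
    segment ℝ (xx i) (xx i + e' i • vv xx i)
  pend : ∀ i, h (xx i + e i • vv xx i) = xx i + e' i • vv xx i

theorem trans_image (h h' : Plane ≃ₜ Plane) (S : Set Plane) :
    (h.trans h') '' S = h' '' (h '' S) :=
  image_comp h' h S

theorem Carries.trans {e e' e'' : ZMod 14 → ℝ} {h h' : Plane ≃ₜ Plane} (H : Carries e e' h)
    (H' : Carries e' e'' h') : Carries e e'' (h.trans h') where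
  edge i := by
    rw [trans_image, H.edge, H'.edge]
  vert i := by
    rw [Homeomorph.trans_apply, H.vert, H'.vert]
  short i := by
    rw [trans_image, H.short, H'.short]
  pend i := by
    rw [Homeomorph.trans_apply, H.pend, H'.pend]

theorem carries_update (e : ZMod 14 → ℝ) (k : ZMod 14) (s : ℝ)
    (he : ∀ i, 0 < e i ∧ e i * 999 < 1 / 2) (hs : 0 < s ∧ s * 999 < 1 / 2) :
    ∃ h, Carries e (Function.update e k s) h := by
  have hR : (0 : ℝ) < 1 / 2 := by norm_num
  have hv := vv_norm_pos k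
  have hr1 : e k * ‖vv xx k‖ < 1 / 2 := by
    have := mul_le_mul_of_nonneg_left (vv_norm_le k) (he k).1.le
    linarith [(he k).2]
  have hs1 : s * ‖vv xx k‖ < 1 / 2 := by
    have := mul_le_mul_of_nonneg_left (vv_norm_le k) hs.1.le
    linarith [hs.2]
  have hl : 0 < lam (1 / 2) (e k * ‖vv xx k‖) (s * ‖vv xx k‖) :=
    lam_pos (mul_pos (he k).1 hv) hr1 (mul_pos hs.1 hv) hs1
  have hfar : ∀ i, i ≠ k → ∀ p ∈ segment ℝ (xx i) (xx i + e i • vv xx i), 1 / 2 ≤ ‖p - xx k‖ := by
    intro i hi p hp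
    obtain ⟨t, h0, h1, rfl⟩ := segment_mem.mp hp
    have h2 := vert_far hi
    have h3 : ‖t • e i • vv xx i‖ ≤ 1 / 2 := by
      rw [norm_smul, norm_smul, Real.norm_of_nonneg h0, Real.norm_of_nonneg (he i).1.le]
      have h4 := mul_le_mul_of_nonneg_left (vv_norm_le i) (he i).1.le
      have h5 : 0 ≤ e i * ‖vv xx i‖ := mul_nonneg (he i).1.le (norm_nonneg _)
      have h6 : t * (e i * ‖vv xx i‖) ≤ 1 * (e i * ‖vv xx i‖) :=
        mul_le_mul_of_nonneg_right h1 h5
      linarith [(he i).2]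
    have h7 : ‖xx i - xx k‖ ≤ ‖xx i + t • e i • vv xx i - xx k‖ + ‖t • e i • vv xx i‖ := by
      have : xx i - xx k = (xx i + t • e i • vv xx i - xx k) - t • e i • vv xx i := by abel
      calc ‖xx i - xx k‖ = ‖(xx i + t • e i • vv xx i - xx k) - t • e i • vv xx i‖ := by
            rw [← this]
        _ ≤ _ := norm_sub_le _ _
    linarith
  refine ⟨rad (xx k) (1 / 2) _ hR hl, ?_, ?_, ?_, ?_⟩
  · intro i
    by_cases h1 : i = k
    · subst h1
      have hd : (1 : ℝ) / 2 ≤ ‖xx (i + 1) - xx i‖ := by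
        have := @vert_far i (i + 1) (by intro h; exact absurd (by simpa using h) (by decide))
        linarith
      have := rad_image_long (xx i) (xx (i + 1) - xx i) hR hl hd
      rw [add_sub_cancel] at this
      exact this
    · by_cases h2 : i + 1 = k
      · subst h2
        have hd : (1 : ℝ) / 2 ≤ ‖xx i - xx (i + 1)‖ := by
          have := @vert_far (i + 1) i h1
          linarith
        have := rad_image_long (xx (i + 1)) (xx i - xx (i + 1)) hR hl hd
        rw [add_sub_cancel] at this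
        unfold Pool.Agent.Helper337.PolygonPattern.edge
        rw [segment_symm]
        exact this
      · exact rad_image_fix _ hR hl (fun p hp => edge_far h1 h2 hp)
  · intro i
    by_cases h1 : i = k
    · subst h1
      exact radF_centre _
    · have := vert_far h1
      exact radF_far _ hR hl (by linarith)
  · intro i
    by_cases h1 : i = k
    · subst h1
      rw [Function.update_self]
      exact rad_image_short (xx i) (vv xx i) hR (he i).1 hr1 hs.1 hs1 hv hl
    · rw [Function.update_of_ne h1]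
      exact rad_image_fix _ hR hl (hfar i h1)
  · intro i
    by_cases h1 : i = k
    · subst h1
      rw [Function.update_self]
      exact (radF_short (xx i) (vv xx i) (he i).1 hr1 hs.1 hs1 hv (left_mem_segment ℝ _ _)).2
    · rw [Function.update_of_ne h1]
      exact radF_far _ hR hl (hfar i h1 _ (right_mem_segment ℝ _ _))

theorem carries_const (r s : ℝ) (hr : 0 < r ∧ r * 999 < 1 / 2) (hs : 0 < s ∧ s * 999 < 1 / 2) :
    ∃ h, Carries (fun _ => r) (fun _ => s) h := by
  classical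
  have main : ∀ S : Finset (ZMod 14), ∃ h, Carries (fun _ => r) (fun i => if i ∈ S then s else r) h := by
    intro S
    induction S using Finset.induction_on with
    | empty =>
      refine ⟨Homeomorph.refl _, ?_, ?_, ?_, ?_⟩
      · intro i; simp
      · intro i; simp
      · intro i; simp
      · intro i; simp
    | insert k S hk ih =>
      obtain ⟨h, hh⟩ := ih
      obtain ⟨h', hh'⟩ := carries_update (fun i => if i ∈ S then s else r) k s
        (fun i => by split_ifs <;> assumption) hs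
      refine ⟨h.trans h', ?_⟩
      have e : (fun i => if i ∈ insert k S then s else r) =
          Function.update (fun i => if i ∈ S then s else r) k s := by
        funext i
        by_cases hi : i = k
        · subst hi; simp
        · rw [Function.update_of_ne hi]; simp [hi]
      rw [e]
      exact hh.trans hh'
  obtain ⟨h, hh⟩ := main Finset.univ
  refine ⟨h, ?_⟩
  simpa using hh

/-- the reflection carries the pieces of the first polygon to those of the second one -/
theorem tau_vv (i : ZMod 14) : tau (vv xx i) = vv yy (i + 7) := by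
  have h1 : i + 7 - 1 = (i - 1) + 7 := by ring
  have h2 : i + 7 + 1 = (i + 1) + 7 := by ring
  unfold vv
  rw [h1, h2, ← tau_xx, ← tau_xx, ← tau_xx]
  simp only [tau_apply]
  apply Prod.ext
  · simp
  · simp; ring

theorem tau_pend (r : ℝ) (i : ZMod 14) :
    tau (xx i + r • vv xx i) = yy (i + 7) + r • vv yy (i + 7) := by
  rw [← tau_vv, ← tau_xx]
  simp only [tau_apply]
  apply Prod.ext
  · simp
  · simp; ring

theorem shift7 {α : Type} (f : ZMod 14 → α) : range (fun i => f (i + 7)) = range f :=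
  (Equiv.addRight (7 : ZMod 14)).surjective.range_comp f

/-- the two maps with extra short edges of any two small sizes are homeomorphic -/
theorem same_pattern {r s : ℝ} (hr : 0 < r ∧ r * 999 < 1 / 2) (hs : 0 < s ∧ s * 999 < 1 / 2) :
    ∃ h : Plane ≃ₜ Plane,
      h '' ((⋃ i, edge xx i) ∪ ⋃ i, segment ℝ (xx i) (xx i + r • vv xx i)) =
        (⋃ i, edge yy i) ∪ ⋃ i, segment ℝ (yy i) (yy i + s • vv yy i) ∧
      h '' (range xx ∪ {p | ∃ i j, i ≠ j ∧ p ∈ edge xx i ∧ p ∈ edge xx j} ∪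
          range (fun i => xx i + r • vv xx i)) =
        range yy ∪ {p | ∃ i j, i ≠ j ∧ p ∈ edge yy i ∧ p ∈ edge yy j} ∪
          range (fun i => yy i + s • vv yy i) := by
  obtain ⟨h, hh⟩ := carries_const r s hr hs
  have hE : ∀ i, (h.trans tau) '' edge xx i = edge yy (i + 7) := by
    intro i
    rw [trans_image, hh.edge, tau_edge]
  have hV : ∀ i, (h.trans tau) (xx i) = yy (i + 7) := by
    intro i
    rw [Homeomorph.trans_apply, hh.vert, tau_xx]
  have hP : ∀ i, (h.trans tau) (xx i + r • vv xx i) = yy (i + 7) + s • vv yy (i + 7) := by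
    intro i
    rw [Homeomorph.trans_apply, hh.pend, tau_pend]
  have hS : ∀ i, (h.trans tau) '' segment ℝ (xx i) (xx i + r • vv xx i) =
      segment ℝ (yy (i + 7)) (yy (i + 7) + s • vv yy (i + 7)) := by
    intro i
    rw [trans_image, hh.short, tau_segment, tau_pend, tau_xx]
  refine ⟨h.trans tau, ?_, ?_⟩
  · rw [image_union, image_iUnion, image_iUnion]
    simp only [hE, hS]
    rw [iUnion_shift (fun i => edge yy i),
      iUnion_shift (fun i => segment ℝ (yy i) (yy i + s • vv yy i))]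
  · rw [image_union, image_union]
    congr 1
    · congr 1
      · rw [← range_comp]
        have : (h.trans tau) ∘ xx = fun i => yy (i + 7) := funext hV
        rw [this, shift7]
      · ext p
        constructor
        · rintro ⟨q, ⟨i, j, hij, hi, hj⟩, rfl⟩
          refine ⟨i + 7, j + 7, fun hc => hij (add_right_cancel hc), ?_, ?_⟩
          · rw [← hE]; exact mem_image_of_mem _ hi
          · rw [← hE]; exact mem_image_of_mem _ hj
        · rintro ⟨i, j, hij, hi, hj⟩
          have e : ∀ i : ZMod 14, i = (i - 7) + 7 := fun i => by ring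
          rw [e i, ← hE] at hi
          rw [e j, ← hE] at hj
          obtain ⟨q, hq, rfl⟩ := hi
          obtain ⟨q', hq', hqq⟩ := hj
          have := (h.trans tau).injective hqq
          subst this
          exact ⟨q', ⟨i - 7, j - 7, fun hc => hij (sub_left_injective hc), hq, hq'⟩, rfl⟩
    · rw [← range_comp]
      have : (h.trans tau) ∘ (fun i => xx i + r • vv xx i) =
          fun i => yy (i + 7) + s • vv yy (i + 7) := funext hP
      rw [this, shift7 (fun i => yy i + s • vv yy i)]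

end Pool.Agent.Z45.Poly
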