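import Mathlib
import Pool.Agent.Z45.PolyPat

set_option autoImplicit false

namespace Pool.Agent.Z45.Poly

open Set Pool.Agent.Helper337.PolygonPattern

theorem induct (P : ZMod 14 → Prop) (h0 : P 0) (h : ∀ i, P i → P (i + 1)) : ∀ i, P i := by
  intro i
  have h1 : ∀ n : ℕ, P (n : ZMod 14) := by
    intro n
    induction n with
    | zero => simpa using h0
    | succ n ih => rw [Nat.cast_succ]; exact h _ ih
  have h2 := h1 i.val
  rwa [ZMod.natCast_zmod_val] at h2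

section

variable (ρ ρ' : ZMod 14 → ZMod 14)

theorem core_ord (h : ∀ i, ρ i = i + 1) (x : ZMod 14 → Plane) (hx : Ordinary x) :
    ∀ (p : ℝ × ℝ) (i j k : ZMod 14), p ∈ segment ℝ (x i) (x (ρ i)) →
      p ∈ segment ℝ (x j) (x (ρ j)) → p ∈ segment ℝ (x k) (x (ρ k)) →
      i = j ∨ j = k ∨ i = k := by
  intro p i j k h1 h2 h3
  by_contra hcon
  push Not at hcon
  rw [h] at h1 h2 h3
  exact hx p i j k hcon.1 hcon.2.1 hcon.2.2 ⟨h1, h2, h3⟩

theorem core_prop (h : ∀ i, ρ i = i + 1) (h' : ∀ i, ρ' i = i - 1) (x : ZMod 14 → Plane)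
    (h1 : IsPolygon x) (h2 : Proper x) :
    (∀ i, x i ≠ x (ρ i)) ∧
      ∀ i, ¬ Collinear ℝ ({x (ρ' i), x i, x (ρ i)} : Set (ℝ × ℝ)) := by
  constructor
  · intro i
    rw [h]; exact h1 i
  · intro i
    rw [h, h']; exact h2 i

theorem core_same (h : ∀ i, ρ i = i + 1) (h' : ∀ i, ρ' i = i - 1) :
    ∃ δ : ℝ, 0 < δ ∧ ∀ r s : ℝ, 0 < r → r < δ → 0 < s → s < δ →
      ∃ g : Homeomorph (ℝ × ℝ) (ℝ × ℝ),
        g '' ((⋃ i, segment ℝ (xx i) (xx (ρ i))) ∪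
            ⋃ i, segment ℝ (xx i) (xx i + r • ((2 : ℝ) • xx i - xx (ρ' i) - xx (ρ i)))) =
          (⋃ i, segment ℝ (yy i) (yy (ρ i))) ∪
            ⋃ i, segment ℝ (yy i) (yy i + s • ((2 : ℝ) • yy i - yy (ρ' i) - yy (ρ i))) ∧
        g '' (range xx ∪ {p : ℝ × ℝ | ∃ i j, i ≠ j ∧ p ∈ segment ℝ (xx i) (xx (ρ i)) ∧
              p ∈ segment ℝ (xx j) (xx (ρ j))} ∪
            range (fun i => xx i + r • ((2 : ℝ) • xx i - xx (ρ' i) - xx (ρ i)))) =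
          range yy ∪ {p : ℝ × ℝ | ∃ i j, i ≠ j ∧ p ∈ segment ℝ (yy i) (yy (ρ i)) ∧
              p ∈ segment ℝ (yy j) (yy (ρ j))} ∪
            range (fun i => yy i + s • ((2 : ℝ) • yy i - yy (ρ' i) - yy (ρ i))) := by
  obtain rfl : ρ = fun i => i + 1 := funext h
  obtain rfl : ρ' = fun i => i - 1 := funext h'
  refine ⟨1 / 2000, by norm_num, ?_⟩
  intro r s hr hr' hs hs'
  exact @same_pattern r s ⟨hr, by linarith⟩ ⟨hs, by linarith⟩

theorem core_par (h : ∀ i, ρ i = i + 1) :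
    ∀ i, ∃ c : ℝ, 0 < c ∧ yy (ρ i) - yy i = c • (xx (ρ i) - xx i) := by
  intro i
  rw [h]
  exact parallel_xy i

theorem core_final (h : ∀ i, ρ i = i + 1) (h' : ∀ i, ρ' i = i - 1) (σ : ZMod 14 → ZMod 14)
    (hd : (∀ i, σ (ρ i) = ρ (σ i)) ∨ (∀ i, σ (ρ i) = ρ' (σ i)))
    (hp : ∀ i, ∃ c : ℝ, 0 < c ∧ yy (σ (ρ i)) - yy (σ i) = c • (xx (ρ i) - xx i))
    (X : ℝ → ZMod 14 → ℝ × ℝ)
    (hc : ∀ j, ContinuousOn (fun t => X t j) (Icc (0 : ℝ) 1)) (h0 : X 0 = xx)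
    (h1 : X 1 = fun i => yy (σ i))
    (hO : ∀ t ∈ Icc (0 : ℝ) 1, ∀ (p : ℝ × ℝ) (i j k : ZMod 14),
      p ∈ segment ℝ (X t i) (X t (ρ i)) → p ∈ segment ℝ (X t j) (X t (ρ j)) →
      p ∈ segment ℝ (X t k) (X t (ρ k)) → i = j ∨ j = k ∨ i = k)
    (hP : ∀ t ∈ Icc (0 : ℝ) 1, ∀ i, ∃ c : ℝ, 0 < c ∧ X t (ρ i) - X t i = c • (xx (ρ i) - xx i)) :
    False := by
  obtain rfl : ρ = fun i => i + 1 := funext h
  obtain rfl : ρ' = fun i => i - 1 := funext h'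
  have hrel : IsRelabelling σ := by
    refine ⟨σ 0, ?_⟩
    rcases hd with hd | hd
    · left
      refine induct _ (add_zero _).symm ?_
      intro i hi
      rw [hd i, hi]
      exact add_assoc _ _ _
    · right
      refine induct _ (sub_zero _).symm ?_
      intro i hi
      rw [hd i, hi]
      exact sub_sub _ _ _
  have hy := relabelling_unique hrel hp
  refine no_path (P := X) hc h0 (h1.trans hy) ?_ hP
  intro t ht p i j k hij hjk hik ⟨m1, m2, m3⟩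
  rcases hO t ht p i j k m1 m2 m3 with h | h | h
  · exact hij h
  · exact hjk h
  · exact hik h

end

end Pool.Agent.Z45.Poly
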